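import Pool.Agent.U207.IM.Conic

/-! Rationally connected varieties and the immovable fibration. -/

set_option autoImplicit false

namespace Pool.Agent.U207.IM

open MvPolynomial IntermediateField Pool.Agent.R867.Mov Pool.Agent.R867.D Pool.Agent.R867.J

universe u v w

section

variable {k K : Type u} [Field k] [Field K] [Algebra k K]

theorem conic_of_trdeg {M K : Type u} [Field M] [Field K] [Algebra M K] {n : ℕ}
    (h : K →ₐ[M] Rt n (AlgebraicClosure M)) (h1 : Algebra.trdeg M K = 1) :
    ∃ Θ : K →ₐ[M] RatFunc (AlgebraicClosure M), adjoin (AlgebraicClosure M) (Set.range Θ) = ⊤ := by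
  obtain ⟨s, hs⟩ := exists_isTranscendenceBasis M K
  have h2 := hs.cardinalMk_eq_trdeg
  rw [h1, Cardinal.mk_set_eq_one_iff] at h2
  obtain ⟨t, ht⟩ := h2
  have htr : Transcendental M t := by
    have h3 := hs.1.transcendental ⟨t, by rw [ht]; rfl⟩
    exact h3
  refine conic_of_geo h htr fun z => ?_
  have h4 := hs.isAlgebraic.isAlgebraic z
  rw [Subtype.range_coe, ht] at h4
  exact h4

theorem rc_two [IsAlgClosed k] {N : ℕ} {x : Fin N → K} (hx : adjoin k (Set.range x) = ⊤)
    (hC : CurvePts k x) :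
    (∃ n, Nonempty (K →ₐ[k] Rt n k)) ∨ (2 : Cardinal) ≤ Algebra.trdeg k (immField k K) := by
  by_cases h : ∃ a b : K, Imm k a ∧ Imm k b ∧ AlgebraicIndependent k ![a, b]
  · right
    obtain ⟨a, b, ha, hb, hab⟩ := h
    have h1 : AlgebraicIndependent k (![⟨a, ha⟩, ⟨b, hb⟩] : Fin 2 → immField k K) := by
      refine AlgebraicIndependent.of_comp (immField k K).val ?_
      have h2 : ((immField k K).val ∘ (![⟨a, ha⟩, ⟨b, hb⟩] : Fin 2 → immField k K)) = ![a, b] := by
        funext i
        fin_cases i <;> rfl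
      rw [h2]
      exact hab
    have h3 := h1.lift_cardinalMk_le_trdeg
    simpa using h3
  · left
    refine main_rc hx hC fun a b ha hb hab => h ⟨a, b, ha, hb, hab⟩

theorem unirational_iff [IsAlgClosed k] {N : ℕ} {x : Fin N → K} (hx : adjoin k (Set.range x) = ⊤) :
    (∃ n, Nonempty (K →ₐ[k] Rt n k)) ↔ immField k K = ⊥ := by
  constructor
  · rintro ⟨n, ⟨ψ⟩⟩
    rw [eq_bot_iff]
    intro a ha
    rw [mem_bot]
    by_contra h
    obtain ⟨m, σ, hσ⟩ := movable_of_unirational ψ h
    exact hσ (ha m σ)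
  · intro h
    refine unirational_of_dense hx (densePts_of_isAlgClosed x) fun a ha => ?_
    by_contra hmov
    have h1 : a ∈ immField k K := by
      intro n σ
      by_contra h2
      exact hmov ⟨n, σ, h2⟩
    rw [h, mem_bot] at h1
    exact ha h1

theorem threefold [IsAlgClosed k] {N : ℕ} {x : Fin N → K} (hx : adjoin k (Set.range x) = ⊤)
    (hC : CurvePts k x) (h3 : Algebra.trdeg k K = 3) :
    (∃ n, Nonempty (K →ₐ[k] Rt n k)) ∨ immField k K = ⊤ ∨
      Algebra.trdeg k (immField k K) = 2 ∧ Algebra.trdeg (immField k K) K = 1 := by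
  rcases rc_two hx hC with h | h
  · exact Or.inl h
  right
  have hadd := trdeg_add_eq k (immField k K) (A := K)
  rw [h3] at hadd
  obtain ⟨a, ha⟩ : ∃ a : ℕ, Algebra.trdeg k (immField k K) = a := by
    refine Cardinal.lt_aleph0.mp ?_
    refine lt_of_le_of_lt (b := (3 : Cardinal)) ?_ (by exact_mod_cast (Cardinal.natCast_lt_aleph0 : ((3 : ℕ) : Cardinal) < Cardinal.aleph0))
    rw [← hadd]
    exact self_le_add_right _ _
  obtain ⟨b, hb⟩ : ∃ b : ℕ, Algebra.trdeg (immField k K) K = b := by
    refine Cardinal.lt_aleph0.mp ?_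
    refine lt_of_le_of_lt (b := (3 : Cardinal)) ?_ (by exact_mod_cast (Cardinal.natCast_lt_aleph0 : ((3 : ℕ) : Cardinal) < Cardinal.aleph0))
    rw [← hadd]
    exact self_le_add_left _ _
  rw [ha, hb] at hadd
  rw [ha] at h
  have h5 : a + b = 3 := by exact_mod_cast hadd
  have h6 : 2 ≤ a := by exact_mod_cast h
  rcases Nat.eq_zero_or_pos b with h7 | h7
  · left
    rw [h7] at hb
    have h8 : Algebra.trdeg (immField k K) K = 0 := by rw [hb]; rfl
    rw [trdeg_eq_zero_iff] at h8
    rw [eq_top_iff]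
    intro z _
    exact immField_closed (h8.isAlgebraic z)
  · right
    have h9 : a = 2 := by omega
    have h10 : b = 1 := by omega
    rw [ha, hb, h9, h10]
    exact ⟨by norm_num, by norm_num⟩

end

end Pool.Agent.U207.IM
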