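import Pool.Agent.U207.IM.Dens2
import Pool.Agent.U207.IM.Thm

/-! Coordinates of the base of the immovable fibration, and potential density. -/

set_option autoImplicit false

namespace Pool.Agent.U207.IM

open MvPolynomial IntermediateField Pool.Agent.R867.Mov Pool.Agent.R867.D Pool.Agent.R867.J

universe u v w

section

variable {k K : Type u} [Field k] [Field K] [Algebra k K] {N : ℕ}

theorem base_basis {x : Fin N → K} {S : Set (Fin N)} (h1 : ∀ i ∈ S, Imm k (x i))
    (h2 : AlgebraicIndepOn k x S) (h3 : ∀ a, Imm k a → a ∈ cl k (x '' S)) :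
    IsTranscendenceBasis k (fun i : S => (⟨x i, h1 i i.2⟩ : immField k K)) := by
  obtain ⟨y, hy⟩ : ∃ y : S → immField k K, y = fun i : S => ⟨x i, h1 i i.2⟩ := ⟨_, rfl⟩
  rw [← hy]
  have h4 : AlgebraicIndependent k y := by
    refine AlgebraicIndependent.of_comp (immField k K).val ?_
    rw [hy]
    exact h2
  refine h4.isTranscendenceBasis_iff_isAlgebraic.mpr ⟨fun b => ?_⟩
  refine cl_val ?_
  have h5 := h3 _ b.2
  have h6 : x '' S = (Subtype.val : immField k K → K) '' Set.range y := by
    rw [hy]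
    ext z
    constructor
    · rintro ⟨i, hi, rfl⟩
      exact ⟨_, ⟨⟨i, hi⟩, rfl⟩, rfl⟩
    · rintro ⟨_, ⟨i, rfl⟩, rfl⟩
      exact ⟨i, i.2, rfl⟩
  rwa [h6] at h5

theorem base_card {x : Fin N → K} {S : Set (Fin N)} (h1 : ∀ i ∈ S, Imm k (x i))
    (h2 : AlgebraicIndepOn k x S) (h3 : ∀ a, Imm k a → a ∈ cl k (x '' S)) :
    ((S.ncard : ℕ) : Cardinal.{u}) = Algebra.trdeg k (immField k K) := by
  have h4 := (base_basis h1 h2 h3).lift_cardinalMk_eq_trdeg
  rw [Cardinal.lift_uzero] at h4
  rw [← h4, ← Set.cast_ncard (Set.toFinite S)]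
  simp

/-- potential density: density over a finitely generated subfield -/
def PotDens (x : Fin N → K) : Prop :=
  ∃ T : Finset k, Dens x (Subfield.closure (T : Set k))

theorem Dens.mono {x : Fin N → K} {E E' : Subfield k} (h : E ≤ E') (hd : Dens x E) :
    Dens x E' := by
  intro G hG
  obtain ⟨c, h1, h2, h3⟩ := hd G hG
  exact ⟨c, h1, fun i => h (h2 i), h3⟩

theorem BaseDense.mono {x : Fin N → K} {S : Set (Fin N)} {g : MvPolynomial (Fin N) k}
    {E E' : Subfield k} (h : E ≤ E') (hd : BaseDense x S g E) : BaseDense x S g E' := by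
  intro G hG
  obtain ⟨c, h1, h2, h3⟩ := hd G hG
  exact ⟨c, h1, fun i => h (h2 i), h3⟩

/-- rational points of a subvariety which dominates the base -/
theorem baseDense_of_sub {L : Type u} [Field L] [Algebra k L] {x : Fin N → K} {z : Fin N → L}
    (hz : ∀ Q : MvPolynomial (Fin N) k, aeval x Q = 0 → aeval z Q = 0) {S : Set (Fin N)}
    {g : MvPolynomial (Fin N) k} (hzg : aeval z g ≠ 0)
    (hzS : AlgebraicIndependent k (fun i : S => z i)) {E : Subfield k} (hd : Dens z E) :
    BaseDense x S g E := by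
  intro h hh
  have h1 : aeval z (g * rename (fun i : S => (i : Fin N)) h) ≠ 0 := by
    rw [map_mul]
    refine mul_ne_zero hzg ?_
    rw [aeval_rename]
    intro h0
    apply hh
    apply hzS
    rw [map_zero]
    exact h0
  obtain ⟨c, hc, hcE, hcg⟩ := hd _ h1
  rw [map_mul, aeval_rename] at hcg
  exact ⟨c, fun Q hQ => hc Q (hz Q hQ), hcE, left_ne_zero_of_mul hcg, right_ne_zero_of_mul hcg⟩

theorem baseDense_empty [IsAlgClosed k] {x : Fin N → K} {S : Set (Fin N)} (hS : S = ∅)
    {g : MvPolynomial (Fin N) k} (hg : aeval x g ≠ 0) :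
    ∃ T : Finset k, BaseDense x S g (Subfield.closure (T : Set k)) := by
  classical
  obtain ⟨c, hc, hcg⟩ := densePts_of_isAlgClosed x g hg
  subst hS
  refine ⟨Finset.univ.image c, fun h hh => ⟨c, fun Q hQ => ?_, fun i => ?_, ?_, ?_⟩⟩
  · rw [aeval_eq_eval]
    exact hc Q hQ
  · apply Subfield.subset_closure
    simp
  · rw [aeval_eq_eval]
    exact hcg
  · intro h0
    apply hh
    have hinj : AlgebraicIndependent k (fun i : (∅ : Set (Fin N)) => c i) :=
      algebraicIndependent_empty_type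
    apply hinj
    rw [map_zero]
    exact h0

end

end Pool.Agent.U207.IM
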