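import Pool.Agent.U207.IM.Geo
import Pool.Agent.Helper460.Gordan

/-! Curves which are geometrically unirational are geometrically rational. -/

set_option autoImplicit false

namespace Pool.Agent.U207.IM

open MvPolynomial IntermediateField Pool.Agent.R867.Mov Pool.Agent.R867.D Pool.Agent.R867.J

universe u v w

section

theorem cl_base {M Ω L : Type u} [Field M] [Field Ω] [Field L] [Algebra M Ω] [Algebra Ω L]
    [Algebra M L] [IsScalarTower M Ω L] {S : Set L} {z : L} (h : z ∈ cl M S) : z ∈ cl Ω S := by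
  refine isAlg_mono (R₁ := Algebra.adjoin M S) Subtype.val_injective Subtype.val_injective
    (fun r => ?_) h
  have hle : Algebra.adjoin M S ≤ (Algebra.adjoin Ω S).restrictScalars M := by
    rw [Algebra.adjoin_le_iff]
    exact Algebra.subset_adjoin
  exact ⟨⟨r, hle r.2⟩, rfl⟩

theorem not_cl_empty' {M L : Type u} [Field M] [Field L] [Algebra M L] {y : L}
    (hy : Transcendental M y) : y ∉ cl M (∅ : Set L) := not_cl_empty hy

theorem conic_of_geo {M K Ω : Type u} [Field M] [Field K] [Algebra M K] [Field Ω] [Algebra M Ω]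
    [IsAlgClosed Ω] [Algebra.IsAlgebraic M Ω] {n : ℕ} (h : K →ₐ[M] Rt n Ω) {t : K}
    (ht : Transcendental M t) (hK : ∀ z : K, z ∈ cl M {t}) :
    ∃ Θ : K →ₐ[M] RatFunc Ω, adjoin Ω (Set.range Θ) = ⊤ := by
  classical
  have hinf : Infinite Ω := IsAlgClosed.instInfinite
  obtain ⟨E, hE⟩ : ∃ E : IntermediateField Ω (Rt n Ω), E = adjoin Ω (Set.range h) := ⟨_, rfl⟩
  have hEm : ∀ z, h z ∈ E := fun z => by
    rw [hE]
    exact IntermediateField.subset_adjoin _ _ ⟨z, rfl⟩
  have htΩ : Transcendental Ω (h t) := by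
    intro h1
    have h2 : IsAlgebraic M (h t) := h1.restrictScalars M
    exact ht ((isAlgebraic_algHom_iff h h.injective).mp h2)
  have hcl : ∀ z ∈ E, z ∈ cl Ω {h t} := by
    obtain ⟨R, hR⟩ := cl_closed (k := Ω) ({h t} : Set (Rt n Ω))
    have h1 : E ≤ R := by
      rw [hE, adjoin_le_iff]
      rintro _ ⟨z, rfl⟩
      rw [hR]
      apply cl_base (M := M)
      have h2 := cl_map h (hK z)
      rwa [Set.image_singleton] at h2
    intro z hz
    have h3 : z ∈ (R : Set (Rt n Ω)) := h1 hz
    rwa [hR] at h3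
  obtain ⟨p, hp⟩ := Pool.Agent.Helper460.Flow.gordan_luroth (n := n) E (fun a ha hat g hg => by
    have h1 := hcl a ha
    rw [← LawfulSingleton.insert_empty_eq (β := Set (Rt n Ω)) (h t)] at h1
    have h2 := cl_exch h1 (not_cl_empty hat)
    rw [LawfulSingleton.insert_empty_eq] at h2
    have h3 : g ∈ cl Ω {a} := cl_sub (by
      rintro _ rfl
      exact h2) (hcl g hg)
    exact h3)
  have hpt : Transcendental Ω p := by
    intro h1
    obtain ⟨q, hq⟩ := mem_range_of_isAlgebraic h1
    apply htΩ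
    have h2 := hEm t
    rw [hp, ← hq] at h2
    have h3 : adjoin Ω {algebraMap Ω (Rt n Ω) q} = ⊥ := by
      rw [adjoin_simple_eq_bot_iff]
      exact (⊥ : IntermediateField Ω (Rt n Ω)).algebraMap_mem q
    rw [h3, mem_bot] at h2
    obtain ⟨z, hz⟩ := h2
    rw [← hz]
    exact isAlgebraic_algebraMap z
  let e : RatFunc Ω ≃ₐ[Ω] adjoin Ω {p} := RatFunc.algEquivOfTranscendental p hpt
  have hm : ∀ z, h z ∈ adjoin Ω {p} := fun z => by
    rw [← hp]
    exact hEm z
  let Θ : K →ₐ[M] RatFunc Ω :=
    { toFun := fun z => e.symm ⟨h z, hm z⟩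
      map_one' := by
        rw [← map_one e.symm]
        congr 1
        exact Subtype.ext (map_one h)
      map_mul' := fun a b => by
        rw [← map_mul e.symm]
        congr 1
        exact Subtype.ext (map_mul h a b)
      map_zero' := by
        rw [← map_zero e.symm]
        congr 1
        exact Subtype.ext (map_zero h)
      map_add' := fun a b => by
        rw [← map_add e.symm]
        congr 1
        exact Subtype.ext (map_add h a b)
      commutes' := fun r => by
        have h1 : (⟨h (algebraMap M K r), hm _⟩ : adjoin Ω {p}) =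
            algebraMap Ω (adjoin Ω {p}) (algebraMap M Ω r) := by
          apply Subtype.ext
          change h (algebraMap M K r) = algebraMap Ω (Rt n Ω) (algebraMap M Ω r)
          rw [h.commutes, ← IsScalarTower.algebraMap_apply]
        rw [h1, e.symm.commutes]
        rfl }
  refine ⟨Θ, ?_⟩
  rw [eq_top_iff]
  intro z _
  let ι : RatFunc Ω →ₐ[Ω] Rt n Ω := (adjoin Ω {p}).val.comp (e : RatFunc Ω →ₐ[Ω] adjoin Ω {p})
  have hι : ∀ a, ι (Θ a) = h a := by
    intro a
    change ((e (e.symm ⟨h a, hm a⟩) : adjoin Ω {p}) : Rt n Ω) = h a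
    rw [e.apply_symm_apply]
  have h1 : (adjoin Ω (Set.range Θ)).map ι = E := by
    rw [adjoin_map, hE]
    congr 1
    ext y
    constructor
    · rintro ⟨_, ⟨a, rfl⟩, rfl⟩
      exact ⟨a, (hι a).symm⟩
    · rintro ⟨a, rfl⟩
      exact ⟨_, ⟨a, rfl⟩, hι a⟩
  have h2 : ι z ∈ (adjoin Ω (Set.range Θ)).map ι := by
    rw [h1, hp]
    exact (e z).2
  obtain ⟨w, hw, hwz⟩ := h2
  have h3 : w = z := ι.injective hwz
  rw [← h3]
  exact hw

end

end Pool.Agent.U207.IM
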