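import Pool.Agent.U207.IM.Spread

/-! Density of rational points from density in the base of the immovable fibration: algebra. -/

set_option autoImplicit false

namespace Pool.Agent.U207.IM

open MvPolynomial IntermediateField Pool.Agent.R867.Mov Pool.Agent.R867.D Pool.Agent.R867.J

universe u v w

section

variable {k K : Type u} [Field k] [Field K] [Algebra k K] {N : ℕ}

/-- new coordinates which are quotients of polynomials -/
theorem clearY {ι : Type} [Fintype ι] (A B : ι → MvPolynomial (Fin N) k)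
    (F : MvPolynomial (Fin N ⊕ ι) k) :
    ∃ (F' : MvPolynomial (Fin N) k) (e : ℕ), ∀ {E : Type u} [Field E] [Algebra k E]
      (c : Fin N → E) (η : ι → E), (∀ i, η i * aeval c (B i) = aeval c (A i)) →
        aeval (Sum.elim c η) F * (∏ i, aeval c (B i)) ^ e = aeval c F' := by
  classical
  induction F using MvPolynomial.induction_on with
  | C a =>
    refine ⟨C a, 0, fun c η _ => ?_⟩
    rw [aeval_C, aeval_C, pow_zero, mul_one]
  | add p q hp hq =>
    obtain ⟨Q₁, e₁, h₁⟩ := hp
    obtain ⟨Q₂, e₂, h₂⟩ := hq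
    refine ⟨Q₁ * (∏ i, B i) ^ e₂ + Q₂ * (∏ i, B i) ^ e₁, e₁ + e₂, fun c η hc => ?_⟩
    rw [map_add, map_add, map_mul, map_mul, map_pow, map_pow, map_prod, ← h₁ c η hc, ← h₂ c η hc]
    ring
  | mul_X p i hp =>
    obtain ⟨Q, e, h⟩ := hp
    rcases i with i | i
    · refine ⟨Q * X i, e, fun c η hc => ?_⟩
      rw [map_mul, map_mul, ← h c η hc, aeval_X, aeval_X, Sum.elim_inl]
      ring
    · refine ⟨Q * (A i * ∏ j ∈ Finset.univ.erase i, B j), e + 1, fun c η hc => ?_⟩
      rw [map_mul, map_mul, map_mul, map_prod, ← h c η hc, ← hc i, aeval_X, Sum.elim_inr, pow_succ]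
      have h1 : ∏ j, aeval c (B j) = aeval c (B i) * ∏ j ∈ Finset.univ.erase i, aeval c (B j) :=
        (Finset.mul_prod_erase Finset.univ (fun j => aeval c (B j)) (Finset.mem_univ i)).symm
      rw [h1]
      ring

/-- relations between coordinates and quotients hold at all points -/
theorem rel_pt {ι : Type} [Fintype ι] {A B : ι → MvPolynomial (Fin N) k} {x : Fin N → K}
    (hB : ∀ i, aeval x (B i) ≠ 0) {F : MvPolynomial (Fin N ⊕ ι) k}
    (hF : aeval (Sum.elim x fun i => aeval x (A i) / aeval x (B i)) F = 0) {E : Type u} [Field E]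
    [Algebra k E] {c : Fin N → E}
    (hc : ∀ Q : MvPolynomial (Fin N) k, aeval x Q = 0 → aeval c Q = 0)
    (hcB : ∀ i, aeval c (B i) ≠ 0) :
    aeval (Sum.elim c fun i => aeval c (A i) / aeval c (B i)) F = 0 := by
  obtain ⟨F', e, h⟩ := clearY A B F
  have h1 := h x (fun i => aeval x (A i) / aeval x (B i)) fun i => div_mul_cancel₀ _ (hB i)
  rw [hF, zero_mul] at h1
  have h2 := h c (fun i => aeval c (A i) / aeval c (B i)) fun i => div_mul_cancel₀ _ (hcB i)
  rw [hc _ h1.symm] at h2
  exact (mul_eq_zero.mp h2).resolve_right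
    (pow_ne_zero _ (Finset.prod_ne_zero_iff.mpr fun i _ => hcB i))

/-- a multiple of an algebraic element in the base -/
theorem exists_norm {x : Fin N → K} {S : Set (Fin N)} {ρ : K} (hρ : ρ ≠ 0)
    (hal : ρ ∈ cl k (x '' S)) :
    ∃ (T : MvPolynomial (S ⊕ Unit) k) (h : MvPolynomial S k),
      aeval (fun i : S => x i) h ≠ 0 ∧
      ρ * aeval (Sum.elim (fun i : S => x i) fun _ => ρ) T = aeval (fun i : S => x i) h := by
  obtain ⟨t, ht, r, hr, hr'⟩ := IsAlgebraic.exists_nonzero_eq_adjoin_mul hal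
    (mem_nonZeroDivisors_of_ne_zero hρ)
  have hrange : ∀ r : Algebra.adjoin k (x '' S), ∃ R : MvPolynomial S k,
      aeval (fun i : S => x i) R = (r : K) := by
    intro r
    have hxJ : x '' S = Set.range (fun i : S => x i) := by
      ext; simp
    have h3 : (r : K) ∈ Algebra.adjoin k (Set.range (fun i : S => x i)) := by
      rw [← hxJ]
      exact r.2
    rw [Algebra.adjoin_range_eq_range_aeval] at h3
    exact h3
  have htA : ∃ T : MvPolynomial (S ⊕ Unit) k,
      aeval (Sum.elim (fun i : S => x i) fun _ => ρ) T = t := by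
    clear hr'
    induction ht using Algebra.adjoin_induction with
    | mem z hz =>
      rw [Set.mem_singleton_iff] at hz
      exact ⟨X (Sum.inr ()), by rw [aeval_X, hz]; rfl⟩
    | algebraMap r =>
      obtain ⟨R, hR⟩ := hrange r
      refine ⟨rename Sum.inl R, ?_⟩
      rw [aeval_rename]
      exact hR
    | add a b _ _ ha hb =>
      obtain ⟨A, hA⟩ := ha
      obtain ⟨B, hB⟩ := hb
      exact ⟨A + B, by rw [map_add, hA, hB]⟩
    | mul a b _ _ ha hb =>
      obtain ⟨A, hA⟩ := ha
      obtain ⟨B, hB⟩ := hb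
      exact ⟨A * B, by rw [map_mul, hA, hB]⟩
  obtain ⟨T, hT⟩ := htA
  obtain ⟨R, hR⟩ := hrange r
  refine ⟨T, R, ?_, ?_⟩
  · rw [hR]
    intro h
    exact hr (Subtype.ext h)
  · rw [hT, hR]
    exact hr'

/-- an immovable function which does not vanish at the points over an open subset of the base -/
theorem base_ne {x : Fin N → K} {S₀ : Set (Fin N)} {A B : Fin N → MvPolynomial (Fin N) k}
    (h3 : ∀ a, Imm k a → a ∈ cl k (x '' S₀))
    (hind : AlgebraicIndependent k (fun i : S₀ => aeval x (A i) / aeval x (B i)))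
    (hI : ∀ i ∈ S₀, Imm k (aeval x (A i) / aeval x (B i))) (hB : ∀ i ∈ S₀, aeval x (B i) ≠ 0)
    {R : MvPolynomial S₀ k} (hR : R ≠ 0) :
    ∃ h : MvPolynomial S₀ k, h ≠ 0 ∧ ∀ {E : Type u} [Field E] [Algebra k E] (c : Fin N → E),
      (∀ Q : MvPolynomial (Fin N) k, aeval x Q = 0 → aeval c Q = 0) →
      (∀ i ∈ S₀, aeval c (B i) ≠ 0) → aeval (fun i : S₀ => c i) h ≠ 0 →
      aeval (fun i : S₀ => aeval c (A i) / aeval c (B i)) R ≠ 0 := by
  classical
  obtain ⟨ρ, hρ⟩ : ∃ ρ : K, ρ = aeval (fun i : S₀ => aeval x (A i) / aeval x (B i)) R := ⟨_, rfl⟩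
  have hρ0 : ρ ≠ 0 := by
    intro h
    apply hR
    apply hind
    rw [map_zero, ← hρ, h]
  have hρI : ρ ∈ immField k K := by
    rw [hρ]
    exact aeval_mem' (immField k K) (fun i : S₀ => aeval x (A i) / aeval x (B i))
      (fun i : S₀ => hI i i.2) R
  obtain ⟨T, h, hh, hTh⟩ := exists_norm hρ0 (h3 ρ hρI)
  refine ⟨h, ?_, ?_⟩
  · rintro rfl
    exact hh (map_zero _)
  · intro E _ _ c hc hcB hch h0
    -- the relation
    obtain ⟨τ, hτ⟩ : ∃ τ : S₀ ⊕ Unit → MvPolynomial (Fin N ⊕ S₀) k,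
      τ = Sum.elim (fun i : S₀ => X (Sum.inl (i : Fin N))) (fun _ : Unit => rename Sum.inr R) :=
      ⟨_, rfl⟩
    obtain ⟨F, hF⟩ : ∃ F : MvPolynomial (Fin N ⊕ S₀) k,
      F = rename Sum.inr R * aeval τ T - rename (fun i : S₀ => Sum.inl (i : Fin N)) h := ⟨_, rfl⟩
    have hev : ∀ {L : Type u} [Field L] [Algebra k L] (d : Fin N → L) (η : S₀ → L),
        aeval (Sum.elim d η) F = aeval η R * aeval (Sum.elim (fun i : S₀ => d i)
          fun _ => aeval η R) T - aeval (fun i : S₀ => d i) h := by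
      intro L _ _ d η
      rw [hF, map_sub, map_mul, aeval_rename, aeval_rename]
      have e1 : (Sum.elim d η ∘ Sum.inr : S₀ → L) = η := rfl
      have e2 : (Sum.elim d η ∘ fun i : S₀ => Sum.inl (i : Fin N)) = fun i : S₀ => d i := rfl
      rw [e1, e2]
      congr 2
      have e3 : (aeval (Sum.elim d η)) (aeval τ T) =
          (((aeval (Sum.elim d η)).comp (aeval τ)) : MvPolynomial (S₀ ⊕ Unit) k →ₐ[k] L) T := rfl
      rw [e3]
      congr 1
      apply MvPolynomial.algHom_ext
      rintro (i | i)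
      · rw [AlgHom.comp_apply, aeval_X, aeval_X, hτ]
        change aeval (Sum.elim d η) (X (Sum.inl (i : Fin N))) = d i
        rw [aeval_X]
        rfl
      · rw [AlgHom.comp_apply, aeval_X, aeval_X, hτ]
        change aeval (Sum.elim d η) (rename Sum.inr R) = aeval η R
        rw [aeval_rename]
        rfl
    have h1 : aeval (Sum.elim x fun i : S₀ => aeval x (A i) / aeval x (B i)) F = 0 := by
      rw [hev, ← hρ, hTh, sub_self]
    have h2 := rel_pt (A := fun i : S₀ => A i) (B := fun i : S₀ => B i) (fun i => hB i i.2) h1 hc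
      (fun i => hcB i i.2)
    rw [hev, h0, zero_mul, zero_sub, neg_eq_zero] at h2
    exact hch h2

/-- a coefficient which makes a polynomial nonzero -/
theorem ne_of_coeff {ι κ : Type} {R : MvPolynomial (ι ⊕ κ) k} (hR : R ≠ 0) :
    ∃ R₁ : MvPolynomial κ k, R₁ ≠ 0 ∧ ∀ {E L : Type u} [Field E] [Field L] [Algebra k E]
      [Algebra E L] [Algebra k L] [IsScalarTower k E L] (a : ι → L) (b : κ → E),
      AlgebraicIndependent E a → aeval b R₁ ≠ 0 →
      aeval (Sum.elim a (algebraMap E L ∘ b)) R ≠ 0 := by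
  classical
  obtain ⟨R', hR'⟩ : ∃ R' : MvPolynomial ι (MvPolynomial κ k), R' = sumAlgEquiv k ι κ R := ⟨_, rfl⟩
  have hR'0 : R' ≠ 0 := by
    rw [hR']
    intro h
    apply hR
    apply (sumAlgEquiv k ι κ).injective
    rw [h, map_zero]
  obtain ⟨m, hm⟩ := ne_zero_iff.mp hR'0
  refine ⟨coeff m R', hm, ?_⟩
  intro E L _ _ _ _ _ _ a b ha hb h0
  have hev : aeval (Sum.elim a (algebraMap E L ∘ b)) R =
      aeval a (MvPolynomial.map ((aeval b : MvPolynomial κ k →ₐ[k] E) : MvPolynomial κ k →+* E)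
        R') := by
    rw [hR']
    let f₁ : MvPolynomial (ι ⊕ κ) k →+* L := (aeval (Sum.elim a (algebraMap E L ∘ b)) :
      MvPolynomial (ι ⊕ κ) k →ₐ[k] L)
    let f₂ : MvPolynomial (ι ⊕ κ) k →+* L :=
      (((aeval a : MvPolynomial ι E →ₐ[E] L) : MvPolynomial ι E →+* L).comp
        (MvPolynomial.map ((aeval b : MvPolynomial κ k →ₐ[k] E) : MvPolynomial κ k →+* E))).comp
        ((sumAlgEquiv k ι κ : MvPolynomial (ι ⊕ κ) k ≃ₐ[k] MvPolynomial ι (MvPolynomial κ k)) :
          MvPolynomial (ι ⊕ κ) k →+* MvPolynomial ι (MvPolynomial κ k))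
    have h1 : f₁ = f₂ := by
      apply MvPolynomial.ringHom_ext
      · intro r
        change aeval (Sum.elim a (algebraMap E L ∘ b)) (C r) = aeval a (MvPolynomial.map _
          (sumAlgEquiv k ι κ (C r)))
        rw [sumAlgEquiv_C_inl, aeval_C, map_C, aeval_C]
        change _ = algebraMap E L (aeval b (C r))
        rw [aeval_C, ← IsScalarTower.algebraMap_apply]
      · rintro (i | i)
        · change aeval (Sum.elim a (algebraMap E L ∘ b)) (X (Sum.inl i)) = aeval a
            (MvPolynomial.map _ (sumAlgEquiv k ι κ (X (Sum.inl i))))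
          rw [sumAlgEquiv_X_inl, aeval_X, map_X, aeval_X]
          rfl
        · change aeval (Sum.elim a (algebraMap E L ∘ b)) (X (Sum.inr i)) = aeval a
            (MvPolynomial.map _ (sumAlgEquiv k ι κ (X (Sum.inr i))))
          rw [sumAlgEquiv_X_inr, aeval_X, map_C, aeval_C]
          change _ = algebraMap E L (aeval b (X i))
          rw [aeval_X]
          rfl
    exact congrArg (fun f => f R) h1
  rw [hev] at h0
  have h2 : MvPolynomial.map ((aeval b : MvPolynomial κ k →ₐ[k] E) : MvPolynomial κ k →+* E) R' =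
      0 := by
    apply ha
    rw [h0, map_zero]
  apply hb
  have h3 := congrArg (coeff m) h2
  rw [coeff_map, coeff_zero] at h3
  exact h3

end

end Pool.Agent.U207.IM
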