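import Pool.Agent.U207.IM.Dens

/-! Density of rational points from density in the base of the immovable fibration. -/

set_option autoImplicit false

namespace Pool.Agent.U207.IM

open MvPolynomial IntermediateField Pool.Agent.R867.Mov Pool.Agent.R867.D Pool.Agent.R867.J

universe u v w

section

variable {k K : Type u} [Field k] [Field K] [Algebra k K] {N n : ℕ}

theorem eval_mem_sub {σ : Type} (E : Subfield k) {p : MvPolynomial σ k}
    (hp : ∀ m, coeff m p ∈ E) {t : σ → k} (ht : ∀ i, t i ∈ E) : eval t p ∈ E := by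
  rw [eval_eq]
  exact sum_mem fun d _ => mul_mem (hp d) (prod_mem fun i _ => pow_mem (ht i) _)

/-- the coefficients of a polynomial whose coefficients are polynomials -/
def CoefIn (E : Subfield k) (P : MvPolynomial (Fin n) (MvPolynomial (Fin N) k)) : Prop :=
  ∀ m m', coeff m' (coeff m P) ∈ E

theorem exists_coefs (P : MvPolynomial (Fin n) (MvPolynomial (Fin N) k)) :
    ∃ T : Finset k, ∀ E : Subfield k, (T : Set k) ⊆ E → CoefIn E P := by
  classical
  refine ⟨P.support.biUnion fun m => (coeff m P).support.image fun m' => coeff m' (coeff m P),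
    fun E hE m m' => ?_⟩
  by_cases h1 : coeff m P = 0
  · rw [h1, coeff_zero]
    exact E.zero_mem
  by_cases h2 : coeff m' (coeff m P) = 0
  · rw [h2]
    exact E.zero_mem
  apply hE
  rw [Finset.mem_coe, Finset.mem_biUnion]
  exact ⟨m, mem_support_iff.mpr h1, Finset.mem_image.mpr ⟨m', mem_support_iff.mpr h2, rfl⟩⟩

theorem coefIn_map {E : Subfield k} {P : MvPolynomial (Fin n) (MvPolynomial (Fin N) k)}
    (hP : CoefIn E P) {c : Fin N → k} (hc : ∀ i, c i ∈ E) (m : Fin n →₀ ℕ) :
    coeff m (MvPolynomial.map (evc c) P) ∈ E := by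
  rw [coeff_map]
  change aeval c (coeff m P) ∈ E
  rw [aeval_eq_eval]
  exact eval_mem_sub E (hP m) hc

/-- a nonzero polynomial has nonzero values on infinite subfields -/
theorem exists_ne_sub (E : Subfield k) [Infinite E] {p : MvPolynomial (Fin n) k} (hp : p ≠ 0) :
    ∃ t : Fin n → k, (∀ i, t i ∈ E) ∧ eval t p ≠ 0 := by
  by_contra hcon
  push Not at hcon
  apply hp
  refine funext_set (fun _ => (E : Set k)) (fun _ => ?_) fun t ht => ?_
  · exact Set.infinite_coe_iff.mp (by
      change Infinite E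
      infer_instance)
  · rw [map_zero]
    exact hcon t fun i => ht i trivial

/-- points with coordinates in a subfield from a point over a field of rational functions -/
theorem dense_sub {x : Fin N → K} (E : Subfield k) [Infinite E]
    {P : Fin N → MvPolynomial (Fin n) (MvPolynomial (Fin N) k)}
    {D : MvPolynomial (Fin n) (MvPolynomial (Fin N) k)} {c : Fin N → k} (hc : ∀ i, c i ∈ E)
    (hP : ∀ i, CoefIn E (P i)) (hD : CoefIn E D) (hcD : evE c n D ≠ 0)
    (hrel : ∀ Q : MvPolynomial (Fin N) k, aeval x Q = 0 →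
      aeval (fun i => evE c n (P i) / evE c n D) Q = 0)
    {G : MvPolynomial (Fin N) k} (hG : aeval (fun i => evE c n (P i) / evE c n D) G ≠ 0) :
    ∃ e : Fin N → k, (∀ i, e i ∈ E) ∧
      (∀ Q : MvPolynomial (Fin N) k, aeval x Q = 0 → aeval e Q = 0) ∧ aeval e G ≠ 0 := by
  obtain ⟨z, hz⟩ : ∃ z : Fin N → Rt n k, z = fun i => evE c n (P i) / evE c n D := ⟨_, rfl⟩
  rw [← hz] at hrel hG
  obtain ⟨A, hA⟩ : ∃ A : Fin N → MvPolynomial (Fin n) k, A = fun i => MvPolynomial.map (evc c) (P i) :=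
    ⟨_, rfl⟩
  obtain ⟨D', hD'⟩ : ∃ D' : MvPolynomial (Fin n) k, D' = MvPolynomial.map (evc c) D := ⟨_, rfl⟩
  have hDr : algebraMap (MvPolynomial (Fin n) k) (Rt n k) D' ≠ 0 := by
    rw [hD', ← evE_apply]
    exact hcD
  have hzA : ∀ i, z i * algebraMap (MvPolynomial (Fin n) k) (Rt n k) D' =
      algebraMap (MvPolynomial (Fin n) k) (Rt n k) (A i) := by
    intro i
    rw [hz, hA, hD', ← evE_apply, ← evE_apply]
    exact div_mul_cancel₀ _ hcD
  have hD'0 : D' ≠ 0 := by
    intro h
    rw [h, map_zero] at hDr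
    exact hDr rfl
  obtain ⟨G', m, hG', hG''⟩ := clearR (k := k) hzA G
  have hG'0 : G' ≠ 0 := by
    rintro rfl
    rw [map_zero] at hG'
    exact mul_ne_zero hG (pow_ne_zero _ hDr) hG'
  obtain ⟨t, htE, ht⟩ := exists_ne_sub E (mul_ne_zero hG'0 hD'0)
  rw [map_mul] at ht
  have htD : eval t D' ≠ 0 := right_ne_zero_of_mul ht
  obtain ⟨e, he⟩ : ∃ e : Fin N → k, e = fun i => eval t (A i) / eval t D' := ⟨_, rfl⟩
  have he' : ∀ i, e i * eval t D' = eval t (A i) := fun i => by
    rw [he]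
    exact div_mul_cancel₀ _ htD
  refine ⟨e, fun i => ?_, fun Q hQ => ?_, fun h0 => ?_⟩
  · rw [he]
    refine div_mem (eval_mem_sub E ?_ htE) (eval_mem_sub E ?_ htE)
    · rw [hA]
      exact coefIn_map (hP i) hc
    · rw [hD']
      exact coefIn_map hD hc
  · obtain ⟨Q', m', hQ', hQ''⟩ := clearR (k := k) hzA Q
    rw [hrel Q hQ, zero_mul] at hQ'
    have h1 : Q' = 0 := by
      apply rt_inj k n
      rw [map_zero]
      exact hQ'.symm
    have h2 := hQ'' t e he'
    rw [h1, map_zero] at h2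
    exact (mul_eq_zero.mp h2).resolve_right (pow_ne_zero _ htD)
  · have h2 := hG'' t e he'
    rw [h0, zero_mul] at h2
    exact left_ne_zero_of_mul ht h2.symm

/-- `U(E)` has dense image in the base -/
def BaseDense (x : Fin N → K) (S₀ : Set (Fin N)) (g : MvPolynomial (Fin N) k) (E : Subfield k) :
    Prop :=
  ∀ h : MvPolynomial S₀ k, h ≠ 0 → ∃ c : Fin N → k,
    (∀ Q : MvPolynomial (Fin N) k, aeval x Q = 0 → aeval c Q = 0) ∧ (∀ i, c i ∈ E) ∧
      aeval c g ≠ 0 ∧ aeval (fun i : S₀ => c i) h ≠ 0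

/-- `X(E)` is dense in `X` -/
def Dens (x : Fin N → K) (E : Subfield k) : Prop :=
  ∀ G : MvPolynomial (Fin N) k, aeval x G ≠ 0 → ∃ c : Fin N → k,
    (∀ Q : MvPolynomial (Fin N) k, aeval x Q = 0 → aeval c Q = 0) ∧ (∀ i, c i ∈ E) ∧
      aeval c G ≠ 0

theorem base_main {x : Fin N → K} (hx : adjoin k (Set.range x) = ⊤) {S₀ : Set (Fin N)}
    (h1 : ∀ i ∈ S₀, Imm k (x i)) (h2 : AlgebraicIndepOn k x S₀)
    (h3 : ∀ a, Imm k a → a ∈ cl k (x '' S₀)) :
    ∃ g : MvPolynomial (Fin N) k, aeval x g ≠ 0 ∧ ∃ T : Finset k, ∀ E : Subfield k, Infinite E →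
      (T : Set k) ⊆ E → (Dens x E ↔ BaseDense x S₀ g E) := by
  classical
  obtain ⟨n, J, P, D, g, A, B, hdisj, hind, hKa, hAB, hABI, hB, hg, hspec⟩ := spread hx h1 h2 h3
  choose T hT using fun i => exists_coefs (P i)
  obtain ⟨T', hT'⟩ := exists_coefs D
  refine ⟨g, hg, Finset.univ.biUnion T ∪ T', fun E hE hTE => ⟨fun hd h hh => ?_, fun hb G hG => ?_⟩⟩
  · have hgh : aeval x (g * rename (fun i : S₀ => (i : Fin N)) h) ≠ 0 := by
      rw [map_mul]
      refine mul_ne_zero hg ?_
      rw [aeval_rename]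
      intro h0
      apply hh
      apply h2
      rw [map_zero]
      exact h0
    obtain ⟨c, hc, hcE, hcg⟩ := hd _ hgh
    rw [map_mul, aeval_rename] at hcg
    exact ⟨c, hc, hcE, left_ne_zero_of_mul hcg, right_ne_zero_of_mul hcg⟩
  · have hPE : ∀ i, CoefIn E (P i) := fun i => hT i E fun a ha => hTE (by
      rw [Finset.coe_union, Finset.coe_biUnion]
      exact Or.inl (Set.mem_biUnion (Finset.mem_coe.mpr (Finset.mem_univ i)) ha))
    have hDE : CoefIn E D := hT' E fun a ha => hTE (by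
      rw [Finset.coe_union]
      exact Or.inr ha)
    -- the norm of `G`
    obtain ⟨t, ht, r, hr, hr'⟩ := IsAlgebraic.exists_nonzero_eq_adjoin_mul
      (hKa.isAlgebraic (aeval x G)) (mem_nonZeroDivisors_of_ne_zero hG)
    obtain ⟨τ, hτ⟩ : ∃ τ : J ⊕ S₀ → Fin N, τ = Sum.elim (fun i : J => (i : Fin N))
      (fun i : S₀ => (i : Fin N)) := ⟨_, rfl⟩
    have hrange : ∀ r : Algebra.adjoin k (x '' (S₀ ∪ J)), ∃ R : MvPolynomial (J ⊕ S₀) k,
        aeval (x ∘ τ) R = (r : K) := by
      intro r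
      have hxJ : x '' (S₀ ∪ J) = Set.range (x ∘ τ) := by
        rw [hτ]
        ext z
        constructor
        · rintro ⟨i, hi | hi, rfl⟩
          · exact ⟨Sum.inr ⟨i, hi⟩, rfl⟩
          · exact ⟨Sum.inl ⟨i, hi⟩, rfl⟩
        · rintro ⟨i | i, rfl⟩
          · exact ⟨i, Or.inr i.2, rfl⟩
          · exact ⟨i, Or.inl i.2, rfl⟩
      have h4 : (r : K) ∈ Algebra.adjoin k (Set.range (x ∘ τ)) := by
        rw [← hxJ]
        exact r.2
      rw [Algebra.adjoin_range_eq_range_aeval] at h4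
      exact h4
    have htA : ∃ A' : MvPolynomial (Fin N) k, aeval x A' = t := by
      clear hr'
      induction ht using Algebra.adjoin_induction with
      | mem z hz =>
        rw [Set.mem_singleton_iff] at hz
        exact ⟨G, hz.symm⟩
      | algebraMap r =>
        obtain ⟨R, hR⟩ := hrange r
        refine ⟨rename τ R, ?_⟩
        rw [aeval_rename]
        exact hR
      | add a b _ _ ha hb =>
        obtain ⟨A, hA⟩ := ha
        obtain ⟨B, hB⟩ := hb
        exact ⟨A + B, by rw [map_add, hA, hB]⟩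
      | mul a b _ _ ha hb =>
        obtain ⟨A, hA⟩ := ha
        obtain ⟨B, hB⟩ := hb
        exact ⟨A * B, by rw [map_mul, hA, hB]⟩
    obtain ⟨A', hA'⟩ := htA
    obtain ⟨R, hR⟩ := hrange r
    have hR0 : R ≠ 0 := by
      rintro rfl
      apply hr
      apply Subtype.ext
      rw [← hR, map_zero]
      rfl
    have hrelG : aeval x (G * A' - rename τ R) = 0 := by
      rw [map_sub, map_mul, aeval_rename, hA', hR, hr']
      exact sub_self _
    obtain ⟨R₁, hR₁, hne⟩ := ne_of_coeff hR0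
    obtain ⟨h, hh, hbase⟩ := base_ne h3 hAB hABI hB hR₁
    obtain ⟨c, hc, hcE, hcg, hch⟩ := hb h hh
    obtain ⟨hcB, hcD, hyc0, hycJ, hycS⟩ := hspec c hc hcg
    have h5 := hbase c hc hcB hch
    have h6 := hne (E := k) (L := Rt n k) (fun i : J => evE c n (P i) / evE c n D)
      (fun i : S₀ => aeval c (A i) / aeval c (B i)) hycJ h5
    have h7 := hyc0 _ hrelG
    rw [map_sub, map_mul, aeval_rename] at h7
    have h8 : ((fun i => evE c n (P i) / evE c n D) ∘ τ : J ⊕ S₀ → Rt n k) =
        Sum.elim (fun i : J => evE c n (P i) / evE c n D)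
          (algebraMap k (Rt n k) ∘ fun i : S₀ => aeval c (A i) / aeval c (B i)) := by
      rw [hτ]
      funext o
      rcases o with i | i
      · rfl
      · exact hycS i i.2
    rw [h8] at h7
    have h9 : aeval (fun i => evE c n (P i) / evE c n D) G ≠ 0 := by
      intro h0
      rw [h0, zero_mul, zero_sub, neg_eq_zero] at h7
      exact h6 h7
    obtain ⟨e, heE, he, heG⟩ := dense_sub (x := x) E hcE hPE hDE hcD hyc0 h9
    exact ⟨e, he, heE, heG⟩

end

end Pool.Agent.U207.IM
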