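import Pool.Agent.U207.IM.Spread

/-! The geometric generic fibre of the immovable fibration is unirational. -/

set_option autoImplicit false

namespace Pool.Agent.U207.IM

open MvPolynomial IntermediateField Pool.Agent.R867.Mov Pool.Agent.R867.D Pool.Agent.R867.J

universe u v w

section

variable {k K : Type u} [Field k] [Field K] [Algebra k K]

theorem finite_basis {M : Type u} [Field M] [Algebra k M]
    {N : ℕ} (hN : ∀ (r : ℕ) (u : Fin r → M), AlgebraicIndependent k u → r ≤ N) {s : Set M}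
    (hs : IsTranscendenceBasis k ((↑) : s → M)) : s.Finite := by
  by_contra hinf
  have hinf' : s.Infinite := hinf
  obtain ⟨f⟩ : Nonempty (Fin (N + 1) ↪ s) := by
    have := hinf'.to_subtype
    exact ⟨(Fin.valEmbedding).trans (Infinite.natEmbedding s)⟩
  have h1 := hN (N + 1) _ (hs.1.comp f f.injective)
  omega

/-- coordinates which contain a transcendence basis of the immovable functions -/
theorem exists_coords (hfg : ∃ S : Finset K, adjoin k (S : Set K) = ⊤) :
    ∃ (N : ℕ) (x : Fin N → K) (S₀ : Set (Fin N)), adjoin k (Set.range x) = ⊤ ∧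
      (∀ i ∈ S₀, Imm k (x i)) ∧ AlgebraicIndepOn k x S₀ ∧ ∀ a, Imm k a → a ∈ cl k (x '' S₀) := by
  classical
  obtain ⟨N₁, x₁, hx₁⟩ := fin_gen hfg
  have hN := bound hx₁
  have hN' : ∀ (r : ℕ) (u : Fin r → immField k K), AlgebraicIndependent k u → r ≤ N₁ :=
    fun r u hu => hN r _ (hu.map' (f := (immField k K).val) Subtype.val_injective)
  obtain ⟨s, hs⟩ := exists_isTranscendenceBasis k (immField k K)
  have hsf := finite_basis hN' hs
  obtain ⟨S, hS⟩ := hfg
  obtain ⟨T, hT⟩ : ∃ T : Finset K, T = S ∪ (hsf.toFinset.image ((↑) : immField k K → K)) := ⟨_, rfl⟩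
  have hTs : ∀ b ∈ s, (b : K) ∈ T := by
    intro b hb
    rw [hT, Finset.mem_union]
    exact Or.inr (Finset.mem_image.mpr ⟨b, hsf.mem_toFinset.mpr hb, rfl⟩)
  let e := T.equivFin
  obtain ⟨x, hxe⟩ : ∃ x : Fin T.card → K, x = fun i => (e.symm i : K) := ⟨_, rfl⟩
  have hxinj : Function.Injective x := by
    rw [hxe]
    exact Subtype.val_injective.comp e.symm.injective
  have hxr : ∀ a ∈ T, ∃ i, x i = a := by
    intro a ha
    refine ⟨e ⟨a, ha⟩, ?_⟩
    rw [hxe]
    simp
  obtain ⟨S₀, hS₀⟩ : ∃ S₀ : Set (Fin T.card), S₀ = {i | ∃ b ∈ s, (b : K) = x i} := ⟨_, rfl⟩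
  have hmem : ∀ i : S₀, ∃ b : s, ((b : immField k K) : K) = x i := by
    rintro ⟨i, hi⟩
    rw [hS₀] at hi
    obtain ⟨b, hb, hbi⟩ := hi
    exact ⟨⟨b, hb⟩, hbi⟩
  choose f hf using hmem
  have hfinj : Function.Injective f := by
    intro i j hij
    apply Subtype.ext
    apply hxinj
    rw [← hf i, ← hf j, hij]
  refine ⟨T.card, x, S₀, ?_, ?_, ?_, ?_⟩
  · rw [eq_top_iff, ← hS]
    apply adjoin.mono
    intro a ha
    obtain ⟨i, hi⟩ := hxr a (by
      rw [hT, Finset.mem_union]
      exact Or.inl ha)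
    exact ⟨i, hi⟩
  · intro i hi
    rw [← hf ⟨i, hi⟩]
    exact (f ⟨i, hi⟩ : immField k K).2
  · have h1 := (hs.1.comp f hfinj).map' (f := (immField k K).val) Subtype.val_injective
    have h2 : ((immField k K).val ∘ ((↑) : s → immField k K) ∘ f) = fun i : S₀ => x i := by
      funext i
      exact hf i
    rw [h2] at h1
    exact h1
  · intro a ha
    have h1 := hs.isAlgebraic
    have h2 := h1.isAlgebraic (⟨a, ha⟩ : immField k K)
    rw [Subtype.range_coe] at h2
    have h3 : (⟨a, ha⟩ : immField k K) ∈ cl k s := h2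
    have h4 := cl_map (immField k K).val h3
    refine cl_mono ?_ h4
    rintro _ ⟨b, hb, rfl⟩
    obtain ⟨i, hi⟩ := hxr b (hTs b hb)
    refine ⟨i, ?_, hi⟩
    rw [hS₀]
    exact ⟨b, hb, hi.symm⟩

/-- an algebraically closed field which is algebraic over the image of `M` -/
theorem exists_closure_map {M Ω : Type u} [Field M] [Field Ω] [IsAlgClosed Ω] (τ : M →+* Ω)
    (h : ∀ z : Ω, IsAlgebraic τ.fieldRange z) :
    ∃ θ : Ω →+* AlgebraicClosure M, ∀ b, θ (τ b) = algebraMap M (AlgebraicClosure M) b := by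
  let _ : Algebra M Ω := τ.toAlgebra
  have halg : Algebra.IsAlgebraic M Ω := by
    constructor
    intro z
    obtain ⟨p, hp0, hp⟩ := h z
    have hch : ∀ c : τ.fieldRange, ∃ b : M, τ b = c := fun c => c.2
    choose g hg using hch
    have hinj := τ.injective
    let ρ : τ.fieldRange →+* M :=
      { toFun := g
        map_one' := hinj (by rw [hg, map_one]; rfl)
        map_mul' := fun a b => hinj (by rw [hg, map_mul, hg, hg]; rfl)
        map_zero' := hinj (by rw [hg, map_zero]; rfl)
        map_add' := fun a b => hinj (by rw [hg, map_add, hg, hg]; rfl) }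
    refine ⟨p.map ρ, (Polynomial.map_ne_zero_iff ρ.injective).mpr hp0, ?_⟩
    rw [Polynomial.aeval_def, Polynomial.eval₂_map]
    have h1 : (algebraMap M Ω).comp ρ = algebraMap τ.fieldRange Ω := by
      ext c
      exact hg c
    rw [h1]
    exact hp
  have : IsAlgClosure M Ω := ⟨inferInstance, halg⟩
  let e : Ω ≃ₐ[M] AlgebraicClosure M := IsAlgClosure.equiv M Ω (AlgebraicClosure M)
  exact ⟨(e : Ω →+* AlgebraicClosure M), fun b => e.commutes b⟩

theorem cl_val {M : IntermediateField k K} {T : Set M} {b : M}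
    (h : (b : K) ∈ cl k ((Subtype.val : M → K) '' T)) : b ∈ cl k T := by
  have h1 : IsAlgebraic (Algebra.adjoin k T) (algebraMap M K b) := by
    refine isAlg_mono (R₁ := Algebra.adjoin k ((Subtype.val : M → K) '' T)) Subtype.val_injective
      ?_ (fun r => ?_) h
    · exact (algebraMap M K).injective.comp Subtype.val_injective
    · have h2 : (r : K) ∈ (Algebra.adjoin k T).map M.val := by
        rw [AlgHom.map_adjoin]
        exact r.2
      obtain ⟨m, hm, hmr⟩ := h2
      exact ⟨⟨m, hm⟩, hmr⟩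
  exact (isAlgebraic_algebraMap_iff (algebraMap M K).injective).mp h1

theorem indep_union {E Ω : Type u} [Field E] [Field Ω] [Algebra k E] [Algebra E Ω] [Algebra k Ω]
    [IsScalarTower k E Ω] {ι : Type} {S₀ J : Set ι} {z : ι → Ω}
    {w : S₀ → E} (hw : AlgebraicIndependent k w) (hz : ∀ i : S₀, z i = algebraMap E Ω (w i))
    (hJ : AlgebraicIndependent E (fun i : J => z i)) :
    AlgebraicIndependent k (fun i : (S₀ ∪ J : Set ι) => z i) := by
  classical
  have h4 := hw.sumElim_comp hJ
  have h5 := h4.comp (fun i : (S₀ ∪ J : Set ι) =>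
    if h : (i : ι) ∈ J then (Sum.inl ⟨i, h⟩ : J ⊕ S₀) else
      Sum.inr ⟨i, i.2.resolve_right h⟩) (by
    intro i j hij
    apply Subtype.ext
    dsimp only at hij
    by_cases hi : (i : ι) ∈ J <;> by_cases hj : (j : ι) ∈ J
    · rw [dif_pos hi, dif_pos hj, Sum.inl.injEq] at hij
      exact congrArg (fun z : J => (z : ι)) hij
    · rw [dif_pos hi, dif_neg hj] at hij
      exact absurd hij (by simp)
    · rw [dif_neg hi, dif_pos hj] at hij
      exact absurd hij (by simp)
    · rw [dif_neg hi, dif_neg hj, Sum.inr.injEq] at hij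
      exact congrArg (fun z : S₀ => (z : ι)) hij)
  have h6 : (Sum.elim (fun i : J => z i) (algebraMap E Ω ∘ w) ∘
      fun i : (S₀ ∪ J : Set ι) => if h : (i : ι) ∈ J then (Sum.inl ⟨i, h⟩ : J ⊕ S₀) else
      Sum.inr ⟨i, i.2.resolve_right h⟩) = fun i : (S₀ ∪ J : Set ι) => z i := by
    funext i
    by_cases hi : (i : ι) ∈ J
    · simp only [Function.comp_apply, dif_pos hi, Sum.elim_inl]
    · simp only [Function.comp_apply, dif_neg hi, Sum.elim_inr]
      exact (hz ⟨i, i.2.resolve_right hi⟩).symm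
  rw [h6] at h5
  exact h5

theorem geo (hfg : ∃ S : Finset K, adjoin k (S : Set K) = ⊤) :
    ∃ n : ℕ, Nonempty (K →ₐ[immField k K] Rt n (AlgebraicClosure (immField k K))) := by
  classical
  obtain ⟨N, x, S₀, hx, h1, h2, h3⟩ := exists_coords hfg
  obtain ⟨n, J, P, D, g, A, B, hdisj, hind, hKa, hAB, hABI, hB, hg, hspec⟩ := spread hx h1 h2 h3
  obtain ⟨M, hM⟩ : ∃ M : IntermediateField k K, M = immField k K := ⟨_, rfl⟩
  rw [← hM]
  have hIM : ∀ {a : K}, Imm k a → a ∈ M := fun {a} ha => by rw [hM]; exact ha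
  have hMI : ∀ a ∈ M, Imm k a := fun a ha => by
    rw [hM] at ha
    exact ha
  -- a point of the generic fibre
  obtain ⟨c, hc, hcg⟩ := exists_pt_closure (k := M) x (g := MvPolynomial.map (algebraMap k M) g) (by
    rw [aeval_map_algebraMap]
    exact hg)
  rw [aeval_map_algebraMap] at hcg
  have hck : ∀ Q : MvPolynomial (Fin N) k, aeval x Q = 0 → aeval c Q = 0 := by
    intro Q hQ
    have h4 := hc (MvPolynomial.map (algebraMap k M) Q) (by
      rw [aeval_map_algebraMap]
      exact hQ)
    rwa [aeval_map_algebraMap] at h4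
  obtain ⟨hcB, hcD, hyc0, hycJ, hycS⟩ := hspec c hck hcg
  obtain ⟨yc, hyc⟩ : ∃ yc : Fin N → Rt n (AlgebraicClosure M),
    yc = fun i => evE c n (P i) / evE c n D := ⟨_, rfl⟩
  rw [← hyc] at hyc0
  -- the values of the immovable coordinates
  have hval : ∀ i (hi : i ∈ S₀), aeval c (A i) / aeval c (B i) =
      algebraMap M (AlgebraicClosure M) ⟨_, hIM (hABI i hi)⟩ := by
    intro i hi
    rw [div_eq_iff (hcB i hi)]
    have h4 := hc (MvPolynomial.map (algebraMap k M) (A i) -
      C (⟨_, hIM (hABI i hi)⟩ : M) * MvPolynomial.map (algebraMap k M) (B i)) (by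
        rw [map_sub, map_mul, aeval_C, aeval_map_algebraMap, aeval_map_algebraMap]
        change aeval x (A i) - aeval x (A i) / aeval x (B i) * aeval x (B i) = 0
        rw [div_mul_cancel₀ _ (hB i hi), sub_self])
    rw [map_sub, map_mul, aeval_C, aeval_map_algebraMap, aeval_map_algebraMap] at h4
    exact sub_eq_zero.mp h4
  have hyS : ∀ i (hi : i ∈ S₀), yc i = algebraMap (AlgebraicClosure M) (Rt n (AlgebraicClosure M))
      (algebraMap M (AlgebraicClosure M) ⟨_, hIM (hABI i hi)⟩) := by
    intro i hi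
    rw [← hval i hi, hyc]
    exact hycS i hi
  have hindM : AlgebraicIndependent k (fun i : S₀ => (⟨_, hIM (hABI i i.2)⟩ : M)) :=
    AlgebraicIndependent.of_comp M.val hAB
  have hindΩ : AlgebraicIndependent k (fun i : S₀ => algebraMap M (AlgebraicClosure M)
      ⟨_, hIM (hABI i i.2)⟩) :=
    hindM.map' (f := IsScalarTower.toAlgHom k M (AlgebraicClosure M))
      (algebraMap M (AlgebraicClosure M)).injective
  -- independence of the images of the transcendence basis
  have hycJ' : AlgebraicIndependent (AlgebraicClosure M) (fun i : J => yc i) := by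
    rw [hyc]
    exact hycJ
  have hindS : AlgebraicIndependent k (fun i : (S₀ ∪ J : Set (Fin N)) => yc i) :=
    indep_union hindΩ (fun i => hyS i i.2) hycJ'
  -- the homomorphism
  obtain ⟨Θ, hΘ⟩ := embedG (aeval x : MvPolynomial (Fin N) k →ₐ[k] K)
    (aeval yc : MvPolynomial (Fin N) k →ₐ[k] Rt n (AlgebraicClosure M))
    (fun Q => ⟨fun h => hyc0 Q h, fun h => inj_of_indep hKa hyc0 hindS Q h⟩)
    (fun f => by
      obtain ⟨P', Q', hQ', h⟩ := exists_frac hx f
      exact ⟨P', Q', hQ', h⟩)
  have hΘx : ∀ i, Θ (x i) = yc i := by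
    intro i
    have h4 := hΘ (X i)
    rwa [aeval_X, aeval_X] at h4
  have hΘM : ∀ b : M, ∃ z : AlgebraicClosure M,
      algebraMap (AlgebraicClosure M) (Rt n (AlgebraicClosure M)) z = Θ b := by
    intro b
    have h5 := cl_map Θ (h3 _ (hMI b b.2))
    have h6 := cl_mono (k := k) (T := con n (AlgebraicClosure M)) (by
      rintro _ ⟨_, ⟨i, hi, rfl⟩, rfl⟩
      exact ⟨_, ((hΘx i).trans (hyS i hi)).symm⟩) h5
    exact mem_con_cl h6
  choose τ hτ using hΘM
  have hinj := (algebraMap (AlgebraicClosure M) (Rt n (AlgebraicClosure M))).injective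
  let τ' : M →+* AlgebraicClosure M :=
    { toFun := τ
      map_one' := hinj (by rw [hτ, map_one]; exact map_one Θ)
      map_mul' := fun a b => hinj (by rw [hτ, map_mul, hτ, hτ]; exact map_mul Θ _ _)
      map_zero' := hinj (by rw [hτ, map_zero]; exact map_zero Θ)
      map_add' := fun a b => hinj (by rw [hτ, map_add, hτ, hτ]; exact map_add Θ _ _) }
  have hτ' : ∀ b : M, algebraMap (AlgebraicClosure M) (Rt n (AlgebraicClosure M)) (τ' b) = Θ b :=
    hτ
  -- `M` is algebraic over the values of the immovable coordinates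
  obtain ⟨y, hy⟩ : ∃ y : S₀ → M, y = fun i => ⟨x i, hIM (h1 i i.2)⟩ := ⟨_, rfl⟩
  have hyb : IsTranscendenceBasis k y := by
    have h4 : AlgebraicIndependent k y := by
      refine AlgebraicIndependent.of_comp M.val ?_
      rw [hy]
      exact h2
    refine h4.isTranscendenceBasis_iff_isAlgebraic.mpr ⟨fun b => ?_⟩
    refine cl_val ?_
    have h5 := h3 _ (hMI b b.2)
    have h6 : x '' S₀ = (Subtype.val : M → K) '' Set.range y := by
      rw [hy]
      ext z
      constructor
      · rintro ⟨i, hi, rfl⟩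
        exact ⟨_, ⟨⟨i, hi⟩, rfl⟩, rfl⟩
      · rintro ⟨_, ⟨i, rfl⟩, rfl⟩
        exact ⟨i, i.2, rfl⟩
    rwa [h6] at h5
  obtain ⟨y', hy'⟩ : ∃ y' : S₀ → M, y' = fun i => ⟨_, hIM (hABI i i.2)⟩ := ⟨_, rfl⟩
  have hyb' : IsTranscendenceBasis k y' := by
    rw [hy']
    refine hindM.isTranscendenceBasis_of_lift_trdeg_le_of_finite ?_
    exact le_of_eq hyb.lift_cardinalMk_eq_trdeg.symm
  have halg1 := hyb'.isAlgebraic
  have halg2 : Algebra.IsAlgebraic (Algebra.adjoin k (Set.range y')) (AlgebraicClosure M) :=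
    Algebra.IsAlgebraic.trans _ M _
  have halg : ∀ z : AlgebraicClosure M, IsAlgebraic τ'.fieldRange z := by
    intro z
    refine isAlg_mono (R₁ := Algebra.adjoin k (Set.range y')) ?_ Subtype.val_injective
      (fun r => ?_) (halg2.isAlgebraic z)
    · exact (algebraMap M (AlgebraicClosure M)).injective.comp Subtype.val_injective
    · have h4 : ∀ m ∈ Algebra.adjoin k (Set.range y'),
          algebraMap M (AlgebraicClosure M) m ∈ τ'.fieldRange := by
        intro m hm
        induction hm using Algebra.adjoin_induction with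
        | mem m hm =>
          obtain ⟨i, rfl⟩ := hm
          refine ⟨y i, hinj ?_⟩
          rw [hτ', hy, hy']
          exact (hΘx i).trans (hyS i i.2)
        | algebraMap r =>
          refine ⟨algebraMap k M r, hinj ?_⟩
          rw [hτ']
          exact Θ.commutes r
        | add a b _ _ ha hb =>
          rw [map_add]
          exact add_mem ha hb
        | mul a b _ _ ha hb =>
          rw [map_mul]
          exact mul_mem ha hb
      exact ⟨⟨_, h4 r r.2⟩, rfl⟩
  obtain ⟨θ, hθ⟩ := exists_closure_map τ' halg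
  refine ⟨n, ⟨{ toRingHom := (mapRt θ n).comp (Θ : K →+* Rt n (AlgebraicClosure M))
                commutes' := fun b => ?_ }⟩⟩
  change mapRt θ n (Θ b) = _
  rw [← hτ', mapRt_C, hθ, ← IsScalarTower.algebraMap_apply]

end

end Pool.Agent.U207.IM
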