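import Pool.Agent.R867.D.MainRC
import Pool.Agent.R867.D.Dens

/-! The field of the immovable functions, and independence over `K` from independence over it. -/

set_option autoImplicit false

namespace Pool.Agent.U207.IM

open MvPolynomial IntermediateField Pool.Agent.R867.Mov Pool.Agent.R867.D Pool.Agent.R867.J

universe u v

variable {k : Type u} {K : Type u} [Field k] [Field K] [Algebra k K]

variable (k K) in
/-- the field of the immovable functions -/
def immField : IntermediateField k K where
  carrier := {a | Imm k a}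
  mul_mem' {a b} ha hb := fun n σ => by
    obtain ⟨a', ha'⟩ := ha n σ
    obtain ⟨b', hb'⟩ := hb n σ
    exact ⟨a' * b', by rw [map_mul, map_mul, ha', hb']⟩
  add_mem' {a b} ha hb := fun n σ => by
    obtain ⟨a', ha'⟩ := ha n σ
    obtain ⟨b', hb'⟩ := hb n σ
    exact ⟨a' + b', by rw [map_add, map_add, ha', hb']⟩
  algebraMap_mem' c := fun n σ => ⟨algebraMap k K c, by
    rw [σ.commutes, ← IsScalarTower.algebraMap_apply]⟩
  inv_mem' a ha := fun n σ => by
    obtain ⟨a', ha'⟩ := ha n σ
    exact ⟨a'⁻¹, by rw [map_inv₀, map_inv₀, ha']⟩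

theorem mem_immField {a : K} : a ∈ immField k K ↔ Imm k a := Iff.rfl

/-- the field is algebraically closed in `K` -/
theorem immField_closed {z : K} (hz : IsAlgebraic (immField k K) z) : z ∈ immField k K := by
  intro n σ
  apply mem_con_cl (k := k)
  have h1 : z ∈ cl k ((immField k K : Set K)) := by
    rw [mem_cl_iff]
    refine isAlg_mono (R₁ := immField k K) Subtype.val_injective Subtype.val_injective
      (fun r => ⟨⟨r, IntermediateField.subset_adjoin k _ r.2⟩, rfl⟩) hz
  refine cl_mono ?_ (cl_map σ h1)
  rintro _ ⟨y, hy, rfl⟩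
  exact hy n σ

/-- stability under endomorphisms -/
theorem immField_map (g : K →ₐ[k] K) {a : K} (ha : a ∈ immField k K) : g a ∈ immField k K :=
  Imm.map ha g

/-- the restriction of a family to the immovable functions -/
theorem exists_psi {n : ℕ} (φ : K →ₐ[k] Rt n K) : ∃ ψ : immField k K →ₐ[k] immField k K,
    ∀ a : immField k K, algebraMap K (Rt n K) (ψ a : K) = φ a := by
  have h : ∀ a : immField k K, ∃ b : K, algebraMap K (Rt n K) b = φ a := fun a => a.2 n φ
  choose g hg using h
  have hinj := (algebraMap K (Rt n K)).injective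
  refine ⟨{ toFun := fun a => ⟨g a, imm_image φ a.2 (hg a)⟩
            map_one' := Subtype.ext (hinj (by
              change algebraMap K (Rt n K) (g 1) = algebraMap K (Rt n K) 1
              rw [hg, map_one]
              exact map_one φ))
            map_mul' := fun a b => Subtype.ext (hinj (by
              change algebraMap K (Rt n K) (g (a * b)) = algebraMap K (Rt n K) (g a * g b)
              rw [hg, map_mul, hg, hg]
              exact map_mul φ _ _))
            map_zero' := Subtype.ext (hinj (by
              change algebraMap K (Rt n K) (g 0) = algebraMap K (Rt n K) 0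
              rw [hg, map_zero]
              exact map_zero φ))
            map_add' := fun a b => Subtype.ext (hinj (by
              change algebraMap K (Rt n K) (g (a + b)) = algebraMap K (Rt n K) (g a + g b)
              rw [hg, map_add, hg, hg]
              exact map_add φ _ _))
            commutes' := fun c => Subtype.ext (hinj (by
              change algebraMap K (Rt n K) (g (algebraMap k (immField k K) c)) =
                algebraMap K (Rt n K) (algebraMap k K c)
              rw [hg, ← IsScalarTower.algebraMap_apply]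
              exact φ.commutes c)) }, fun a => hg a⟩

/-- `M` is algebraic over its image under an endomorphism -/
theorem alg_over_image {M : Type u} [Field M] [Algebra k M]
    {N : ℕ} (hN : ∀ (r : ℕ) (u : Fin r → M), AlgebraicIndependent k u → r ≤ N)
    (ψ : M →ₐ[k] M) (z : M) : IsAlgebraic ψ.range z := by
  classical
  obtain ⟨s, hs⟩ := exists_isTranscendenceBasis k M
  have hfin : s.Finite := by
    by_contra hinf
    have hinf' : s.Infinite := hinf
    obtain ⟨f⟩ : Nonempty (Fin (N + 1) ↪ s) := by
      have := hinf'.to_subtype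
      exact ⟨(Fin.valEmbedding).trans (Infinite.natEmbedding s)⟩
    have h1 := hN (N + 1) _ (hs.1.comp f f.injective)
    omega
  have : Finite s := hfin
  have h1 : AlgebraicIndependent k (ψ ∘ ((↑) : s → M)) :=
    (ψ.algebraicIndependent_iff ψ.injective).mpr hs.1
  have h2 : IsTranscendenceBasis k (ψ ∘ ((↑) : s → M)) := by
    refine h1.isTranscendenceBasis_of_trdeg_le_of_finite ?_
    exact le_of_eq hs.cardinalMk_eq_trdeg.symm
  have h3 := h2.isAlgebraic
  have h4 := h3.isAlgebraic z
  refine isAlg_mono Subtype.val_injective Subtype.val_injective (fun r => ?_) h4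
  have hle : Algebra.adjoin k (Set.range (ψ ∘ ((↑) : s → M))) ≤ ψ.range := by
    rw [Algebra.adjoin_le_iff]
    rintro _ ⟨i, rfl⟩
    exact ⟨_, rfl⟩
  exact ⟨⟨r, hle r.2⟩, rfl⟩

/-- independence over `K` from independence over the immovable functions -/
theorem indM {N : ℕ} (hN : ∀ (r : ℕ) (u : Fin r → K), AlgebraicIndependent k u → r ≤ N)
    {n : ℕ} {φ : K →ₐ[k] Rt n K}
    (hφ : ∀ (m : ℕ) (w : Fin m → K), ¬ LinearIndependent K (φ ∘ w) →
      ∃ a : Fin m → K, (∃ j, a j ≠ 0) ∧ (∀ i, Imm k (a i)) ∧ ∑ i, a i • φ (w i) = 0)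
    {ι : Type} {u : ι → K} (hu : AlgebraicIndependent (immField k K) u) :
    AlgebraicIndependent K (φ ∘ u) := by
  classical
  obtain ⟨ψ, hψ⟩ := exists_psi φ
  -- the image of the immovable functions
  obtain ⟨F₁, hF₁⟩ : ∃ F₁ : IntermediateField k (Rt n K), F₁ = (immField k K).map φ := ⟨_, rfl⟩
  have hmem1 : ∀ a : immField k K, φ a ∈ F₁ := fun a => by
    rw [hF₁]
    exact ⟨a, a.2, rfl⟩
  have hmem2 : ∀ z ∈ F₁, ∃ a : immField k K, φ a = z := by
    intro z hz
    rw [hF₁] at hz
    obtain ⟨a, ha, rfl⟩ := hz
    exact ⟨⟨a, ha⟩, rfl⟩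
  let f : immField k K →+* F₁ :=
    { toFun := fun a => ⟨φ a, hmem1 a⟩
      map_one' := Subtype.ext (map_one φ)
      map_mul' := fun a b => Subtype.ext (map_mul φ _ _)
      map_zero' := Subtype.ext (map_zero φ)
      map_add' := fun a b => Subtype.ext (map_add φ _ _) }
  have h2 : AlgebraicIndependent F₁ (φ ∘ u) := by
    refine hu.ringHom_of_comp_eq f (φ : K →+* Rt n K) ?_ φ.injective ?_
    · rintro ⟨z, hz⟩
      obtain ⟨a, ha⟩ := hmem2 z hz
      exact ⟨a, Subtype.ext ha⟩
    · ext a
      rfl
  have h3 := h2.algebraicClosure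
  have hN' : ∀ (r : ℕ) (u : Fin r → immField k K), AlgebraicIndependent k u → r ≤ N :=
    fun r u hu => hN r _ (hu.map' (f := (immField k K).val) Subtype.val_injective)
  have hmemF : ∀ b, Imm k b → algebraMap K (Rt n K) b ∈ algebraicClosure F₁ (Rt n K) := by
    intro b hb
    rw [mem_algebraicClosure_iff]
    obtain ⟨p, hp0, hp⟩ := alg_over_image hN' ψ ⟨b, hb⟩
    -- the image of `ψ.range` in `Rt n K`
    have hch : ∀ c : ψ.range, algebraMap K (Rt n K) ((c : immField k K) : K) ∈ F₁ := by
      rintro ⟨c, a, rfl⟩
      change algebraMap K (Rt n K) (ψ a : K) ∈ F₁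
      rw [hψ]
      exact hmem1 a
    let ρ : ψ.range →+* F₁ :=
      { toFun := fun c => ⟨algebraMap K (Rt n K) ((c : immField k K) : K), hch c⟩
        map_one' := Subtype.ext (map_one _)
        map_mul' := fun a b => Subtype.ext (map_mul (algebraMap K (Rt n K)) _ _)
        map_zero' := Subtype.ext (map_zero _)
        map_add' := fun a b => Subtype.ext (map_add (algebraMap K (Rt n K)) _ _) }
    have hρ : Function.Injective ρ := by
      intro a b hab
      apply Subtype.ext
      apply Subtype.ext
      exact (algebraMap K (Rt n K)).injective (congrArg Subtype.val hab)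
    refine ⟨p.map ρ, (Polynomial.map_ne_zero_iff hρ).mpr hp0, ?_⟩
    rw [Polynomial.aeval_def, Polynomial.eval₂_map]
    have h4 : Polynomial.eval₂ ((algebraMap F₁ (Rt n K)).comp ρ) (algebraMap K (Rt n K) b) p =
        algebraMap K (Rt n K) ((Polynomial.aeval (⟨b, hb⟩ : immField k K) p : immField k K) : K) := by
      have h5 : algebraMap K (Rt n K) ((Polynomial.aeval (⟨b, hb⟩ : immField k K) p :
          immField k K) : K) = ((algebraMap K (Rt n K)).comp (algebraMap (immField k K) K))
            (Polynomial.eval₂ (algebraMap ψ.range (immField k K)) ⟨b, hb⟩ p) := rfl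
      rw [h5, Polynomial.hom_eval₂]
      rfl
    rw [h4, hp]
    exact map_zero _
  -- a relation over `K`
  rw [AlgebraicIndependent, injective_iff_map_eq_zero]
  intro p hp
  by_contra hp0
  obtain ⟨mono, hmono⟩ : ∃ mono : (ι →₀ ℕ) → K, mono = fun m => aeval u (monomial m (1 : k)) :=
    ⟨_, rfl⟩
  have hmφ : ∀ m : ι →₀ ℕ, ∀ {R : Type u} [CommRing R] [Algebra R (Rt n K)],
      φ (mono m) = aeval (φ ∘ u) (monomial m (1 : R)) := by
    intro m R _ _
    rw [hmono]
    change φ (aeval u (monomial m (1 : k))) = _
    rw [aeval_monomial, aeval_monomial, map_one, map_one, one_mul, one_mul, Finsupp.prod,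
      Finsupp.prod, map_prod]
    refine Finset.prod_congr rfl fun i _ => ?_
    rw [map_pow]
    rfl
  obtain ⟨e⟩ : Nonempty (p.support ≃ Fin p.support.card) := ⟨p.support.equivFin⟩
  have hdep : ¬ LinearIndependent K (φ ∘ fun i : Fin p.support.card =>
      mono (e.symm i : ι →₀ ℕ)) := by
    intro hlin
    rw [Fintype.linearIndependent_iff] at hlin
    have h4 := hlin (fun i => p.coeff (e.symm i : ι →₀ ℕ)) (by
      rw [← hp]
      conv_rhs => rw [p.as_sum]
      rw [map_sum, ← Finset.sum_coe_sort p.support, ← e.symm.sum_comp]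
      refine Finset.sum_congr rfl fun i _ => ?_
      rw [Function.comp_apply, hmφ _ (R := K), ← map_smul, smul_monomial, smul_eq_mul, mul_one])
    obtain ⟨m, hm⟩ := ne_zero_iff.mp hp0
    have h5 := h4 (e ⟨m, mem_support_iff.mpr hm⟩)
    rw [Equiv.symm_apply_apply] at h5
    exact hm h5
  obtain ⟨a, ⟨j, hj⟩, haI, ha⟩ := hφ _ _ hdep
  -- the relation over the algebraic closure of `F₁`
  obtain ⟨q, hq⟩ : ∃ q : MvPolynomial ι (algebraicClosure F₁ (Rt n K)),
    q = ∑ i, monomial (e.symm i : ι →₀ ℕ)
      (⟨algebraMap K (Rt n K) (a i), hmemF _ (haI i)⟩ : algebraicClosure F₁ (Rt n K)) := ⟨_, rfl⟩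
  have hq0 : aeval (φ ∘ u) q = 0 := by
    rw [hq, map_sum, ← ha]
    refine Finset.sum_congr rfl fun i _ => ?_
    rw [Algebra.smul_def, hmφ _ (R := algebraicClosure F₁ (Rt n K)), aeval_monomial, aeval_monomial,
      map_one, one_mul]
    rfl
  have hq1 : q = 0 := by
    apply h3
    rw [map_zero]
    exact hq0
  have hcoef : coeff (e.symm j : ι →₀ ℕ) q = ⟨algebraMap K (Rt n K) (a j), hmemF _ (haI j)⟩ := by
    rw [hq, coeff_sum, Finset.sum_eq_single j]
    · rw [coeff_monomial, if_pos rfl]
    · intro b _ hb
      rw [coeff_monomial, if_neg]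
      intro h
      exact hb (e.symm.injective (Subtype.ext h))
    · intro h
      exact absurd (Finset.mem_univ j) h
  rw [hq1, coeff_zero] at hcoef
  apply hj
  have h6 := congrArg Subtype.val hcoef
  apply (algebraMap K (Rt n K)).injective
  rw [map_zero]
  exact h6.symm

/-- the converse: functions which are moved independently are independent over the immovable
functions -/
theorem indM_conv {n : ℕ} {φ : K →ₐ[k] Rt n K} {ι : Type} {u : ι → K}
    (hu : AlgebraicIndependent K (φ ∘ u)) : AlgebraicIndependent (immField k K) u := by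
  obtain ⟨ψ, hψ⟩ := exists_psi φ
  refine AlgebraicIndependent.of_ringHom_of_comp_eq (S := K) (B := Rt n K)
    ((algebraMap (immField k K) K).comp (ψ : immField k K →+* immField k K)) (φ : K →+* Rt n K)
    hu ?_ ?_
  · exact (algebraMap (immField k K) K).injective.comp ψ.injective
  · ext a
    exact hψ a

end Pool.Agent.U207.IM
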