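import Pool.Agent.U207.IM.Ind

/-! Specialization of a family at a point, with explicit formulas (adapted from
`Pool.Agent.R867.D.SpecE`). -/

set_option autoImplicit false

namespace Pool.Agent.U207.IM

open MvPolynomial IntermediateField Pool.Agent.R867.Mov Pool.Agent.R867.D Pool.Agent.R867.J

universe u v w

section Family

variable {k K : Type u} [Field k] [Field K] [Algebra k K] {N n : ℕ}

/-- A family which moves the functions `x i`, `i ∈ J`, independently can be specialized at all
points of a dense open subset over all extensions of the base field: the form of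
`Pool.Agent.R867.D.specE` with explicit formulas for the specialized family. -/
theorem specPhi {x : Fin N → K} (hx : adjoin k (Set.range x) = ⊤) (φ : K →ₐ[k] Rt n K)
    (J : Set (Fin N)) (hJ : AlgebraicIndependent K (fun i : J => φ (x i))) :
    ∃ (P : Fin N → MvPolynomial (Fin n) (MvPolynomial (Fin N) k))
      (D : MvPolynomial (Fin n) (MvPolynomial (Fin N) k)) (g : MvPolynomial (Fin N) k),
      (ΦR x n D ≠ 0 ∧ ∀ i, φ (x i) * ΦR x n D = ΦR x n (P i)) ∧ aeval x g ≠ 0 ∧
      ∀ {E : Type u} [Field E] [Algebra k E] (c : Fin N → E),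
        (∀ Q : MvPolynomial (Fin N) k, aeval x Q = 0 → aeval c Q = 0) → aeval c g ≠ 0 →
        evE c n D ≠ 0 ∧
          (∀ w : MvPolynomial (Fin N ⊕ (Fin N ⊕ Fin n)) k, aeval (fam x (φ ∘ x)) w = 0 →
            aeval (fam c fun i => evE c n (P i) / evE c n D) w = 0) ∧
          AlgebraicIndependent E (fun i : J => evE c n (P i) / evE c n D) := by
  classical
  obtain ⟨P, D, hD, hP⟩ := exists_common (n := n) hx N (fun i => φ (x i))
  obtain ⟨y, hy⟩ : ∃ y : Fin N → Rt n K, y = φ ∘ x := ⟨_, rfl⟩
  have hyP : ∀ i, y i * ΦR x n D = ΦR x n (P i) := by rw [hy]; exact hP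
  -- a transcendence basis of `Rt n K` over `K`
  obtain ⟨v, hv⟩ : ∃ v : Fin N ⊕ Fin n → Rt n K, v = Sum.elim y
    (fun j => algebraMap (MvPolynomial (Fin n) K) (Rt n K) (X j)) := ⟨_, rfl⟩
  have hJv : AlgebraicIndepOn K v (Sum.inl '' J) := by
    have h2 : AlgebraicIndependent K (fun i : (Sum.inl '' J : Set (Fin N ⊕ Fin n)) => v i) := by
      have h3 := hJ.comp (Equiv.Set.image _ J (Sum.inl_injective (β := Fin n))).symm
        (Equiv.injective _)
      have h5 : ((fun i : J => φ (x i)) ∘ (Equiv.Set.image _ J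
          (Sum.inl_injective (β := Fin n))).symm) =
          (fun i : (Sum.inl '' J : Set (Fin N ⊕ Fin n)) => v i) := by
        funext i
        obtain ⟨i, j, hj, rfl⟩ := i
        have h4 : (Equiv.Set.image _ J (Sum.inl_injective (β := Fin n))).symm
            ⟨Sum.inl j, j, hj, rfl⟩ = ⟨j, hj⟩ := by
          rw [Equiv.symm_apply_eq]
          rfl
        simp only [Function.comp_apply, h4]
        rw [hv, hy]
        rfl
      rw [← h5]
      exact h3
    exact h2
  obtain ⟨S, hJS, hS, hSa⟩ := maxIndep v _ hJv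
  have hcard : Cardinal.mk S ≤ n := by
    have h1 := hS.lift_cardinalMk_le_trdeg
    rw [trdeg_rt] at h1
    simpa using h1
  obtain ⟨G, hG⟩ : ∃ G : Set (Fin N ⊕ (Fin N ⊕ Fin n)), G = Set.range Sum.inl ∪ Sum.inr '' S :=
    ⟨_, rfl⟩
  -- the parameters are algebraic over the family indexed by `G`
  have hTa : ∀ l : Fin N ⊕ Fin n,
      IsAlgebraic (Algebra.adjoin k (fam x y '' G)) (fam x y (Sum.inr l)) := by
    intro l
    have h1 := hSa l
    rw [← isAlgebraic_adjoin_iff] at h1 ⊢
    have h2 : (adjoin K (v '' S)).restrictScalars k ≤ adjoin k (fam x y '' G) := by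
      intro z hz
      rw [mem_restrictScalars] at hz
      have h3 : ∀ a : K, algebraMap K (Rt n K) a ∈ adjoin k (fam x y '' G) := by
        intro a
        have ha : a ∈ adjoin k (Set.range x) := by rw [hx]; trivial
        rw [mem_adjoin_range_iff] at ha
        obtain ⟨p, q, rfl⟩ := ha
        rw [map_div₀]
        have h5 : ∀ p : MvPolynomial (Fin N) k, algebraMap K (Rt n K) (aeval x p) ∈
            adjoin k (fam x y '' G) := by
          intro p
          rw [← MvPolynomial.aeval_algebraMap_apply]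
          refine aeval_mem' _ _ (fun i => ?_) p
          apply IntermediateField.subset_adjoin
          refine ⟨Sum.inl i, ?_, rfl⟩
          rw [hG]
          exact Or.inl ⟨i, rfl⟩
        exact div_mem (h5 p) (h5 q)
      have h4 : v '' S = Set.range (fun i : S => v i) := by
        ext; simp
      rw [h4, mem_adjoin_range_iff] at hz
      obtain ⟨p, q, rfl⟩ := hz
      have h5 : ∀ p : MvPolynomial S K, aeval (fun i : S => v i) p ∈
          adjoin k (fam x y '' G) := by
        intro p
        rw [aeval_def, eval₂_eq]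
        refine sum_mem fun d _ => mul_mem (h3 _) (prod_mem fun i _ => pow_mem ?_ _)
        apply IntermediateField.subset_adjoin
        refine ⟨Sum.inr i, ?_, ?_⟩
        · rw [hG]
          exact Or.inr ⟨i, i.2, rfl⟩
        · rw [hv]
          rfl
      exact div_mem (h5 p) (h5 q)
    obtain ⟨p, hp0, hp⟩ := h1
    refine ⟨p.map (IntermediateField.inclusion h2 : _ →ₐ[k] _).toRingHom,
      (Polynomial.map_ne_zero_iff (RingHom.injective _)).mpr hp0, ?_⟩
    rw [Polynomial.aeval_def, Polynomial.eval₂_map]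
    have h6 : fam x y (Sum.inr l) = v l := by rw [hv]; rfl
    rw [h6]
    exact hp
  -- bad loci
  have hgl : ∀ l : Fin N ⊕ Fin n, ∃ g : MvPolynomial (Fin N) k, aeval x g ≠ 0 ∧
      ∀ {E : Type u} [Field E] [Algebra k E] (c : Fin N → E) (yc : Fin N → Rt n E),
        GoodE x P D c yc → aeval c g ≠ 0 →
        IsAlgebraic (Algebra.adjoin k (fam c yc '' G)) (fam c yc (Sum.inr l)) :=
    fun l => algSpecE hD hyP G (Sum.inr l) (hTa l)
  choose g hg hg' using hgl
  obtain ⟨mD, hmD⟩ := evE_ne_aux hD
  refine ⟨P, D, coeff mD D * ∏ l, g l, ⟨hD, hP⟩, by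
    rw [map_mul, map_prod]
    exact mul_ne_zero hmD (Finset.prod_ne_zero_iff.mpr fun l _ => hg l), ?_⟩
  intro E _ _ c hc hcG
  rw [map_mul, map_prod] at hcG
  have hcD : evE c n D ≠ 0 := evE_ne (left_ne_zero_of_mul hcG)
  have hcg : ∀ l, aeval c (g l) ≠ 0 := fun l =>
    Finset.prod_ne_zero_iff.mp (right_ne_zero_of_mul hcG) l (Finset.mem_univ l)
  obtain ⟨yc, hyc⟩ : ∃ yc : Fin N → Rt n E, yc = fun i => evE c n (P i) / evE c n D := ⟨_, rfl⟩
  have hgood : GoodE x P D c yc := ⟨hc, hcD, fun i => by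
    rw [hyc]
    exact div_mul_cancel₀ _ hcD⟩
  obtain ⟨vc, hvc⟩ : ∃ vc : Fin N ⊕ Fin n → Rt n E, vc = Sum.elim yc
    (fun j => algebraMap (MvPolynomial (Fin n) E) (Rt n E) (X j)) := ⟨_, rfl⟩
  have hTc : ∀ l, IsAlgebraic (Algebra.adjoin E (vc '' S)) (vc l) := by
    intro l
    have h1 := hg' l c yc hgood (hcg l)
    have h2 : fam c yc (Sum.inr l) = vc l := by rw [hvc]; rfl
    rw [h2] at h1
    obtain ⟨p, hp0, hp⟩ := h1
    have hle : Algebra.adjoin k (fam c yc '' G) ≤
        (Algebra.adjoin E (vc '' S)).restrictScalars k := by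
      rw [Algebra.adjoin_le_iff]
      rintro z ⟨i, hi, rfl⟩
      rw [hG] at hi
      rcases hi with ⟨i, rfl⟩ | ⟨i, hi, rfl⟩
      · exact Subalgebra.algebraMap_mem (Algebra.adjoin E (vc '' S)) (c i)
      · apply Algebra.subset_adjoin
        refine ⟨i, hi, ?_⟩
        rw [hvc]
        rfl
    refine ⟨p.map (Subalgebra.inclusion hle : _ →ₐ[k] _).toRingHom, ?_, ?_⟩
    · exact (Polynomial.map_ne_zero_iff (f := (Subalgebra.inclusion hle : _ →ₐ[k] _).toRingHom)
        (Subalgebra.inclusion_injective hle)).mpr hp0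
    · rw [Polynomial.aeval_def, Polynomial.eval₂_map]
      exact hp
  have himg : vc '' S = Set.range (fun i : S => vc i) := by
    ext; simp
  have hind : AlgebraicIndependent E (fun i : S => vc i) := by
    have h1 : Algebra.IsAlgebraic (Algebra.adjoin E (Set.range (fun i : S => vc i))) (Rt n E) := by
      rw [← himg]
      refine isAlg_of_adjoin _ _ (adjoin_X E n) fun j => ?_
      have h2 := hTc (Sum.inr j)
      rw [hvc] at h2 ⊢
      exact h2
    exact (Algebra.IsAlgebraic.isTranscendenceBasis_of_lift_le_trdeg_of_finite E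
      (fun i : S => vc i) (by
        rw [trdeg_rt]
        simpa using hcard)).1
  have hindJ : AlgebraicIndependent E (fun i : J => yc i) := by
    have h1 := hind.comp (fun i : J => (⟨Sum.inl i, hJS ⟨i, i.2, rfl⟩⟩ : S)) (by
      intro a b hab
      have := congrArg Subtype.val hab
      exact Subtype.ext (Sum.inl_injective this))
    have h2 : ((fun i : S => vc i) ∘ fun i : J => (⟨Sum.inl i, hJS ⟨i, i.2, rfl⟩⟩ : S)) =
        (fun i : J => yc i) := by
      funext i
      rw [hvc]
      rfl
    rw [← h2]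
    exact h1
  rw [hyc] at hindJ
  refine ⟨hcD, fun w hw => ?_, hindJ⟩
  rw [← hy] at hw
  rw [← hyc]
  exact hgood.zero hyP hw

theorem specP {x : Fin N → K} (hx : adjoin k (Set.range x) = ⊤) (φ : K →ₐ[k] Rt n K)
    (J : Set (Fin N)) (hJ : AlgebraicIndependent K (fun i : J => φ (x i))) :
    ∃ (P : Fin N → MvPolynomial (Fin n) (MvPolynomial (Fin N) k))
      (D : MvPolynomial (Fin n) (MvPolynomial (Fin N) k)) (g : MvPolynomial (Fin N) k),
      aeval x g ≠ 0 ∧
      ∀ {E : Type u} [Field E] [Algebra k E] (c : Fin N → E),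
        (∀ Q : MvPolynomial (Fin N) k, aeval x Q = 0 → aeval c Q = 0) → aeval c g ≠ 0 →
        evE c n D ≠ 0 ∧
          (∀ w : MvPolynomial (Fin N ⊕ (Fin N ⊕ Fin n)) k, aeval (fam x (φ ∘ x)) w = 0 →
            aeval (fam c fun i => evE c n (P i) / evE c n D) w = 0) ∧
          AlgebraicIndependent E (fun i : J => evE c n (P i) / evE c n D) := by
  obtain ⟨P, D, g, -, hg, H⟩ := specPhi hx φ J hJ
  exact ⟨P, D, g, hg, fun c h1 h2 => H c h1 h2⟩

end Family

end Pool.Agent.U207.IM
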