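import Pool.Agent.U207.IM.Spec

/-! A point of a suitable open subset spreads over the fibre of the immovable fibration. -/

set_option autoImplicit false

namespace Pool.Agent.U207.IM

open MvPolynomial IntermediateField Pool.Agent.R867.Mov Pool.Agent.R867.D Pool.Agent.R867.J

universe u v w

section

variable {k K : Type u} [Field k] [Field K] [Algebra k K] {N : ℕ}

/-- independence over the immovable functions from independence over `k` -/
theorem indep_over {x : Fin N → K} {S₀ J : Set (Fin N)} (hdisj : ∀ i ∈ J, i ∉ S₀)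
    (hind : AlgebraicIndepOn k x (S₀ ∪ J)) (h3 : ∀ a, Imm k a → a ∈ cl k (x '' S₀)) :
    AlgebraicIndependent (immField k K) (fun i : J => x i) := by
  classical
  have hS : AlgebraicIndependent k (fun i : (S₀ ∪ J : Set (Fin N)) => x i) := hind
  have h1 := hS.comp (Sum.elim (fun i : J => (⟨i, Or.inr i.2⟩ : (S₀ ∪ J : Set (Fin N))))
    (fun i : S₀ => (⟨i, Or.inl i.2⟩ : (S₀ ∪ J : Set (Fin N))))) (by
      rintro (a | a) (b | b) hab
      · have h : (a : Fin N) = b := congrArg (fun z : (S₀ ∪ J : Set (Fin N)) => (z : Fin N)) hab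
        exact congrArg Sum.inl (Subtype.ext h)
      · exfalso
        have h : (a : Fin N) = b := congrArg (fun z : (S₀ ∪ J : Set (Fin N)) => (z : Fin N)) hab
        exact hdisj a a.2 (h ▸ b.2)
      · exfalso
        have h : (a : Fin N) = b := congrArg (fun z : (S₀ ∪ J : Set (Fin N)) => (z : Fin N)) hab
        exact hdisj b b.2 (h ▸ a.2)
      · have h : (a : Fin N) = b := congrArg (fun z : (S₀ ∪ J : Set (Fin N)) => (z : Fin N)) hab
        exact congrArg Sum.inr (Subtype.ext h))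
  have h2 : ((fun i : (S₀ ∪ J : Set (Fin N)) => x i) ∘
      Sum.elim (fun i : J => (⟨i, Or.inr i.2⟩ : (S₀ ∪ J : Set (Fin N))))
        (fun i : S₀ => (⟨i, Or.inl i.2⟩ : (S₀ ∪ J : Set (Fin N))))) =
      Sum.elim (fun i : J => x i) (fun i : S₀ => x i) := by
    funext o
    rcases o with a | a <;> rfl
  rw [h2] at h1
  obtain ⟨F₀, hF₀⟩ : ∃ F₀ : IntermediateField k K, F₀ = adjoin k (Set.range fun i : S₀ => x i) :=
    ⟨_, rfl⟩
  have h4 : AlgebraicIndependent F₀ (fun i : J => x i) := by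
    rw [hF₀, algebraicIndependent_adjoin_iff]
    exact (AlgebraicIndependent.sumElim_iff.mp h1).2
  have h5 := h4.algebraicClosure
  have hle : ∀ a : immField k K, (a : K) ∈ algebraicClosure F₀ K := by
    intro a
    rw [mem_algebraicClosure_iff]
    have h6 := h3 a a.2
    rw [mem_cl_iff] at h6
    have h7 : x '' S₀ = Set.range fun i : S₀ => x i := by
      ext; simp
    rw [h7] at h6
    rw [hF₀]
    exact h6
  let f : immField k K →+* algebraicClosure F₀ K :=
    { toFun := fun a => ⟨a, hle a⟩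
      map_one' := rfl
      map_mul' := fun a b => rfl
      map_zero' := rfl
      map_add' := fun a b => rfl }
  refine AlgebraicIndependent.of_ringHom_of_comp_eq f (RingHom.id K) ?_ f.injective ?_
  · exact h5
  · ext a
    rfl

theorem spread {x : Fin N → K} (hx : adjoin k (Set.range x) = ⊤) {S₀ : Set (Fin N)}
    (h1 : ∀ i ∈ S₀, Imm k (x i)) (h2 : AlgebraicIndepOn k x S₀)
    (h3 : ∀ a, Imm k a → a ∈ cl k (x '' S₀)) :
    ∃ (n : ℕ) (J : Set (Fin N)) (P : Fin N → MvPolynomial (Fin n) (MvPolynomial (Fin N) k))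
      (D : MvPolynomial (Fin n) (MvPolynomial (Fin N) k)) (g : MvPolynomial (Fin N) k)
      (A B : Fin N → MvPolynomial (Fin N) k),
      (∀ i ∈ J, i ∉ S₀) ∧ AlgebraicIndepOn k x (S₀ ∪ J) ∧
      Algebra.IsAlgebraic (Algebra.adjoin k (x '' (S₀ ∪ J))) K ∧
      AlgebraicIndependent k (fun i : S₀ => aeval x (A i) / aeval x (B i)) ∧
      (∀ i ∈ S₀, Imm k (aeval x (A i) / aeval x (B i))) ∧
      (∀ i ∈ S₀, aeval x (B i) ≠ 0) ∧ aeval x g ≠ 0 ∧
      ∀ {E : Type u} [Field E] [Algebra k E] (c : Fin N → E),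
        (∀ Q : MvPolynomial (Fin N) k, aeval x Q = 0 → aeval c Q = 0) → aeval c g ≠ 0 →
        (∀ i ∈ S₀, aeval c (B i) ≠ 0) ∧ evE c n D ≠ 0 ∧
        (∀ Q : MvPolynomial (Fin N) k, aeval x Q = 0 →
          aeval (fun i => evE c n (P i) / evE c n D) Q = 0) ∧
        AlgebraicIndependent E (fun i : J => evE c n (P i) / evE c n D) ∧
        ∀ i ∈ S₀, evE c n (P i) / evE c n D =
          algebraMap E (Rt n E) (aeval c (A i) / aeval c (B i)) := by
  classical
  obtain ⟨n, φ, hφ⟩ := core_imm (bound hx)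
  obtain ⟨ψ, hψ⟩ := exists_psi φ
  obtain ⟨S, hS0, hS, hSa⟩ := maxIndep (k := k) x S₀ h2
  obtain ⟨J, hJ⟩ : ∃ J : Set (Fin N), J = S \ S₀ := ⟨_, rfl⟩
  have hSJ : S₀ ∪ J = S := by
    rw [hJ]
    exact Set.union_sdiff_cancel hS0
  have hdisj : ∀ i ∈ J, i ∉ S₀ := fun i hi => by
    rw [hJ] at hi
    exact hi.2
  have hind : AlgebraicIndepOn k x (S₀ ∪ J) := by
    rw [hSJ]
    exact hS
  have hu := indep_over hdisj hind h3
  have hJK : AlgebraicIndependent K (fun i : J => φ (x i)) := indM (bound hx) hφ hu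
  obtain ⟨P, D, g, hg, hspec⟩ := specP hx φ J hJK
  -- the images of the immovable coordinates
  have hfr : ∀ i : Fin N, ∃ A B : MvPolynomial (Fin N) k, aeval x B ≠ 0 ∧
      (i ∈ S₀ → ∀ h : i ∈ S₀, ((ψ ⟨x i, h1 i h⟩ : immField k K) : K) * aeval x B = aeval x A) := by
    intro i
    by_cases hi : i ∈ S₀
    · obtain ⟨A, B, hB, hAB⟩ := exists_frac hx ((ψ ⟨x i, h1 i hi⟩ : immField k K) : K)
      exact ⟨A, B, hB, fun _ _ => hAB⟩
    · exact ⟨0, 1, by rw [map_one]; exact one_ne_zero, fun h => absurd h hi⟩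
  choose A B hB hAB using hfr
  have hval : ∀ i (hi : i ∈ S₀), aeval x (A i) / aeval x (B i) =
      ((ψ ⟨x i, h1 i hi⟩ : immField k K) : K) := by
    intro i hi
    rw [← hAB i hi hi, mul_div_cancel_right₀ _ (hB i)]
  refine ⟨n, J, P, D, g * ∏ i, B i, A, B, hdisj, hind, ?_, ?_, ?_, fun i _ => hB i, ?_, ?_⟩
  · rw [hSJ]
    exact isAlg_of_adjoin _ x hx hSa
  · have h4 : AlgebraicIndependent k (fun i : S₀ => (⟨x i, h1 i i.2⟩ : immField k K)) := by
      have h5 : AlgebraicIndependent k (fun i : S₀ => x i) := h2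
      exact AlgebraicIndependent.of_comp (immField k K).val h5
    have h6 : AlgebraicIndependent k (ψ ∘ fun i : S₀ => (⟨x i, h1 i i.2⟩ : immField k K)) :=
      (ψ.algebraicIndependent_iff ψ.injective).mpr h4
    have h7 := h6.map' (f := (immField k K).val) Subtype.val_injective
    have h8 : ((immField k K).val ∘ ψ ∘ fun i : S₀ => (⟨x i, h1 i i.2⟩ : immField k K)) =
        fun i : S₀ => aeval x (A i) / aeval x (B i) := by
      funext i
      rw [hval i i.2]
      rfl
    rw [← h8]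
    exact h7
  · intro i hi
    rw [hval i hi]
    exact (ψ _).2
  · rw [map_mul, map_prod]
    exact mul_ne_zero hg (Finset.prod_ne_zero_iff.mpr fun i _ => hB i)
  · intro E _ _ c hc hcg
    rw [map_mul, map_prod] at hcg
    have hcB : ∀ i, aeval c (B i) ≠ 0 := fun i =>
      Finset.prod_ne_zero_iff.mp (right_ne_zero_of_mul hcg) i (Finset.mem_univ i)
    obtain ⟨hD, hrel, hindE⟩ := hspec c hc (left_ne_zero_of_mul hcg)
    obtain ⟨yc, hyc⟩ : ∃ yc : Fin N → Rt n E, yc = fun i => evE c n (P i) / evE c n D := ⟨_, rfl⟩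
    rw [← hyc] at hrel
    refine ⟨fun i _ => hcB i, hD, ?_, hindE, ?_⟩
    · intro Q hQ
      rw [← hyc]
      have h1 : aeval (fam x (φ ∘ x)) (rename (Sum.inr ∘ Sum.inl) Q :
          MvPolynomial (Fin N ⊕ (Fin N ⊕ Fin n)) k) = 0 := by
        rw [aeval_rename]
        have h3 := congrArg φ hQ
        rwa [map_zero, MvPolynomial.comp_aeval_apply] at h3
      have h2 := hrel _ h1
      rw [aeval_rename] at h2
      exact h2
    · intro i hi
      have h4 : aeval (fam x (φ ∘ x)) (X (Sum.inr (Sum.inl i)) * rename Sum.inl (B i) -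
          rename Sum.inl (A i) : MvPolynomial (Fin N ⊕ (Fin N ⊕ Fin n)) k) = 0 := by
        rw [map_sub, map_mul, aeval_rename, aeval_rename, aeval_X]
        have h5 : fam x (φ ∘ x) ∘ (Sum.inl : Fin N → Fin N ⊕ (Fin N ⊕ Fin n)) =
            algebraMap K (Rt n K) ∘ x := rfl
        rw [h5]
        change φ (x i) * _ - _ = 0
        rw [MvPolynomial.aeval_algebraMap_apply, MvPolynomial.aeval_algebraMap_apply,
          ← hAB i hi hi, map_mul, hψ]
        exact sub_self _
      have h5 := hrel _ h4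
      rw [map_sub, map_mul, aeval_rename, aeval_rename, aeval_X] at h5
      have h6 : fam c yc ∘ (Sum.inl : Fin N → Fin N ⊕ (Fin N ⊕ Fin n)) =
          algebraMap E (Rt n E) ∘ c := rfl
      rw [h6, MvPolynomial.aeval_algebraMap_apply, MvPolynomial.aeval_algebraMap_apply] at h5
      have h7 : yc i = evE c n (P i) / evE c n D := by rw [hyc]
      rw [← h7, map_div₀, eq_div_iff (by
        rw [Ne, map_eq_zero]
        exact hcB i)]
      exact sub_eq_zero.mp h5

end

end Pool.Agent.U207.IM
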